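import Mathlib

/-!
# Flowcharts over an interpretation, their run lengths and their complexity classes
-/

namespace Pool.Agent.H269.Flow

open Filter

/-- An interpretation: a set of functions and a set of predicates on the natural numbers,
each of some finite arity. -/
structure Interp where
  fns : Set (Σ n : ℕ, (Fin n → ℕ) → ℕ)
  prs : Set (Σ n : ℕ, (Fin n → ℕ) → Bool)

/-- All functions and predicates of the interpretation are recursive. -/
def Interp.Recursive (F : Interp) : Prop :=
  (∀ f ∈ F.fns, Computable f.2) ∧ (∀ p ∈ F.prs, Computable p.2)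

/-- The interpretation consists of finitely many functions and predicates. -/
def Interp.IsFinite (F : Interp) : Prop := F.fns.Finite ∧ F.prs.Finite

/-- The labels of the nodes of a flowchart: an operation node `x_dst := f (x_(arg 0), ...)` with
one successor, a test node with two successors, a halt node with its output variable. -/
inductive Instr (F : Interp) (N : Type)
  | op (f : F.fns) (arg : Fin f.1.1 → ℕ) (dst : ℕ) (next : N)
  | test (p : F.prs) (arg : Fin p.1.1 → ℕ) (yes no : N)
  | halt (out : ℕ)

/-- A flowchart: finitely many operation, test and halt nodes; `start` is the successor of the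
start node. -/
structure Flowchart (F : Interp) where
  Node : Type
  fin : Finite Node
  start : Node
  instr : Node → Instr F Node

variable {F : Interp}

/-- `P.outAt k n s = some v` iff the run of `P` from the node `n` with the store `s` executes
exactly `k` nodes (the halt node included) and then stops with output `v`. -/
def Flowchart.outAt (P : Flowchart F) : ℕ → P.Node → (ℕ → ℕ) → Option ℕ
  | 0, _, _ => none
  | k + 1, n, s =>
    match P.instr n with
    | .halt o => if k = 0 then some (s o) else none
    | .op f a d n' => P.outAt k n' (Function.update s d (f.1.2 fun i => s (a i)))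
    | .test p a y z => P.outAt k (bif p.1.2 (fun i => s (a i)) then y else z) s

/-- The initial store: the variable `0` holds the input, all other variables hold `0`. -/
def init (x : ℕ) : ℕ → ℕ := fun i => if i = 0 then x else 0

/-- On input `x` the flowchart `P` halts with output `v`, and its computation has length `k`:
`k` nodes are executed, the start node and the halt node included. -/
def Flowchart.Halts (P : Flowchart F) (x k v : ℕ) : Prop :=
  ∃ k', k = k' + 1 ∧ P.outAt k' P.start (init x) = some v

/-- The output variable of every halt node of `P` lies in `O`. -/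
def Flowchart.OutIn (P : Flowchart F) (O : Set ℕ) : Prop :=
  ∀ n o, P.instr n = .halt o → o ∈ O

/-- `F` is universal: every unary partial recursive function is computed by a flowchart over `F`
(whose output variables lie in `O`). -/
def Universal (O : Set ℕ) (F : Interp) : Prop :=
  ∀ f : ℕ →. ℕ, Nat.Partrec f →
    ∃ P : Flowchart F, P.OutIn O ∧ ∀ x v, v ∈ f x ↔ ∃ k, P.Halts x k v

/-- The complexity class `Φ(t)`: the total functions computed by some flowchart over `F` (with
output variables in `O`) whose computations have length at most `t x` on almost all inputs `x`. -/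
def Cls (O : Set ℕ) (F : Interp) (t : ℕ → ℕ) : Set (ℕ → ℕ) :=
  {f | ∃ P : Flowchart F, P.OutIn O ∧ (∀ x, ∃ k, P.Halts x k (f x)) ∧
    ∀ᶠ x in atTop, ∃ k ≤ t x, P.Halts x k (f x)}

/-- The class `Φ(t)` is closed under finite variation. -/
def InvAt (O : Set ℕ) (F : Interp) (t : ℕ → ℕ) : Prop :=
  ∀ f g : ℕ → ℕ, f ∈ Cls O F t → (∀ᶠ x in atTop, f x = g x) → g ∈ Cls O F t

/-- The flowchart measure of `F` is finitely invariant. -/
def FinInv (O : Set ℕ) (F : Interp) : Prop :=
  ∀ f g t : ℕ → ℕ, Computable f → Computable g → Computable t →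
    f ∈ Cls O F t → (∀ᶠ x in atTop, f x = g x) → g ∈ Cls O F t

/-! ### Basic lemmas -/

theorem outAt_unique (P : Flowchart F) : ∀ (k k' : ℕ) (n : P.Node) (s : ℕ → ℕ) (v v' : ℕ),
    P.outAt k n s = some v → P.outAt k' n s = some v' → k = k' ∧ v = v'
  | 0, _, _, _, _, _, h, _ => by simp [Flowchart.outAt] at h
  | _ + 1, 0, _, _, _, _, _, h => by simp [Flowchart.outAt] at h
  | k + 1, k' + 1, n, s, v, v', h, h' => by
    unfold Flowchart.outAt at h h'
    cases hi : P.instr n with
    | halt o =>
      simp only [hi] at h h'
      by_cases hk : k = 0 <;> by_cases hk' : k' = 0 <;> simp [hk, hk'] at h h'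
      subst hk; subst hk'; subst h; subst h'
      exact ⟨rfl, rfl⟩
    | op f a d n' =>
      simp only [hi] at h h'
      obtain ⟨h1, h2⟩ := outAt_unique P k k' _ _ _ _ h h'
      exact ⟨by rw [h1], h2⟩
    | test p a y z =>
      simp only [hi] at h h'
      obtain ⟨h1, h2⟩ := outAt_unique P k k' _ _ _ _ h h'
      exact ⟨by rw [h1], h2⟩

theorem halts_unique {P : Flowchart F} {x k v k' v' : ℕ} (h : P.Halts x k v)
    (h' : P.Halts x k' v') : k = k' ∧ v = v' := by
  obtain ⟨j, hj, e⟩ := h
  obtain ⟨j', hj', e'⟩ := h'
  obtain ⟨h1, h2⟩ := outAt_unique P _ _ _ _ _ _ e e'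
  exact ⟨by omega, h2⟩

theorem outAt_congr (P : Flowchart F) {n n' : P.Node} (h : P.instr n = P.instr n') (k : ℕ)
    (s : ℕ → ℕ) : P.outAt k n s = P.outAt k n' s := by
  cases k with
  | zero => rfl
  | succ k => simp only [Flowchart.outAt, h]

theorem outAt_halt {P : Flowchart F} {n : P.Node} {o : ℕ} (h : P.instr n = .halt o) (k : ℕ)
    (s : ℕ → ℕ) : P.outAt (k + 1) n s = if k = 0 then some (s o) else none := by
  simp only [Flowchart.outAt, h]

theorem outAt_op {P : Flowchart F} {n n' : P.Node} {f : F.fns} {a : Fin f.1.1 → ℕ} {d : ℕ}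
    (h : P.instr n = .op f a d n') (k : ℕ) (s : ℕ → ℕ) :
    P.outAt (k + 1) n s =
      P.outAt k n' (Function.update s d (f.1.2 fun i => s (a i))) := by
  simp only [Flowchart.outAt, h]

theorem outAt_test {P : Flowchart F} {n y z : P.Node} {p : F.prs} {a : Fin p.1.1 → ℕ}
    (h : P.instr n = .test p a y z) (k : ℕ) (s : ℕ → ℕ) :
    P.outAt (k + 1) n s = P.outAt k (bif p.1.2 (fun i => s (a i)) then y else z) s := by
  simp only [Flowchart.outAt, h]

theorem outAt_pos {P : Flowchart F} {k : ℕ} {n : P.Node} {s : ℕ → ℕ} {v : ℕ}
    (h : P.outAt k n s = some v) : 1 ≤ k := by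
  cases k with
  | zero => simp [Flowchart.outAt] at h
  | succ k => omega

end Pool.Agent.H269.Flow
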