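import Mathlib
import Pool.Agent.H269.Flow.Base

/-!
# Failure of finite invariance for bounded time
-/

namespace Pool.Agent.H269.Flow

open Filter

variable {F : Interp} {O : Set ℕ}

/-- the output, if the run stops within `k` node executions -/
def Flowchart.outLe (P : Flowchart F) : ℕ → P.Node → (ℕ → ℕ) → Option ℕ
  | 0, _, _ => none
  | k + 1, n, s =>
    match P.instr n with
    | .halt o => some (s o)
    | .op f a d n' => P.outLe k n' (Function.update s d (f.1.2 fun i => s (a i)))
    | .test p a y z => P.outLe k (bif p.1.2 (fun i => s (a i)) then y else z) s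

theorem outLe_of_outAt (P : Flowchart F) : ∀ (c k : ℕ) (n : P.Node) (s : ℕ → ℕ) (v : ℕ),
    P.outAt k n s = some v → k ≤ c → P.outLe c n s = some v
  | _, 0, _, _, _, h, _ => by simp [Flowchart.outAt] at h
  | 0, k + 1, _, _, _, _, hk => by omega
  | c + 1, k + 1, n, s, v, h, hk => by
    unfold Flowchart.outAt at h
    unfold Flowchart.outLe
    cases hi : P.instr n with
    | halt o =>
      simp only [hi] at h ⊢
      by_cases hk0 : k = 0
      · simpa [hk0] using h
      · simp [hk0] at h
    | op f a d n' =>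
      simp only [hi] at h ⊢
      exact outLe_of_outAt P c k _ _ _ h (by omega)
    | test p a y z =>
      simp only [hi] at h ⊢
      exact outLe_of_outAt P c k _ _ _ h (by omega)

theorem outAt_of_outLe (P : Flowchart F) : ∀ (c : ℕ) (n : P.Node) (s : ℕ → ℕ) (v : ℕ),
    P.outLe c n s = some v → ∃ k, P.outAt k n s = some v
  | 0, _, _, _, h => by simp [Flowchart.outLe] at h
  | c + 1, n, s, v, h => by
    unfold Flowchart.outLe at h
    cases hi : P.instr n with
    | halt o =>
      simp only [hi] at h
      exact ⟨1, by unfold Flowchart.outAt; simpa [hi] using h⟩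
    | op f a d n' =>
      simp only [hi] at h
      obtain ⟨k, hk⟩ := outAt_of_outLe P c _ _ _ h
      exact ⟨k + 1, by unfold Flowchart.outAt; simpa [hi] using hk⟩
    | test p a y z =>
      simp only [hi] at h
      obtain ⟨k, hk⟩ := outAt_of_outLe P c _ _ _ h
      exact ⟨k + 1, by unfold Flowchart.outAt; simpa [hi] using hk⟩

/-- The set of possible `k`-step behaviours, starting from stores whose contents depend on the
input by functions in `T`. -/
def beh (F : Interp) (k : ℕ) (T : Set (ℕ → ℕ)) : Set (ℕ → Option ℕ) :=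
  {β | ∃ (P : Flowchart F) (n : P.Node) (σ : ℕ → ℕ → ℕ), (∀ v, (fun x => σ x v) ∈ T) ∧
    β = fun x => P.outLe k n (σ x)}

theorem beh_finite (hF : F.IsFinite) : ∀ (k : ℕ) (T : Set (ℕ → ℕ)), T.Finite →
    (beh F k T).Finite := by
  intro k
  induction k with
  | zero =>
    intro T _
    refine (Set.finite_singleton (fun _ : ℕ => (none : Option ℕ))).subset ?_
    rintro β ⟨P, n, σ, _, rfl⟩
    rfl
  | succ k ih =>
    intro T hT
    set T' : Set (ℕ → ℕ) := T ∪ ⋃ f ∈ F.fns,
      (fun u : Fin f.1 → (ℕ → ℕ) => fun x => f.2 (fun i => u i x)) ''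
        (Set.pi Set.univ (fun _ => T)) with hT'
    have hT'f : T'.Finite := by
      refine hT.union (hF.1.biUnion ?_)
      intro f _
      exact (Set.Finite.pi (fun _ => hT)).image _
    set A : Set (ℕ → Option ℕ) := (fun t : ℕ → ℕ => fun x => some (t x)) '' T with hA
    set C : Set (ℕ → Option ℕ) := ⋃ p ∈ F.prs,
      (fun u : (Fin p.1 → (ℕ → ℕ)) × ((ℕ → Option ℕ) × (ℕ → Option ℕ)) =>
        fun x => bif p.2 (fun i => u.1 i x) then u.2.1 x else u.2.2 x) ''
        ((Set.pi Set.univ (fun _ => T)) ×ˢ (beh F k T ×ˢ beh F k T)) with hC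
    have hCf : C.Finite := by
      refine hF.2.biUnion ?_
      intro p _
      exact ((Set.Finite.pi (fun _ => hT)).prod ((ih T hT).prod (ih T hT))).image _
    refine ((hT.image _).union ((ih T' hT'f).union hCf) : (A ∪ (beh F k T' ∪ C)).Finite).subset ?_
    rintro β ⟨P, n, σ, hσ, rfl⟩
    cases hi : P.instr n with
    | halt o =>
      left
      refine ⟨fun x => σ x o, hσ o, ?_⟩
      funext x
      simp [Flowchart.outLe, hi]
    | op f a d n' =>
      right; left
      refine ⟨P, n', fun x => Function.update (σ x) d (f.1.2 fun i => σ x (a i)), ?_, ?_⟩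
      · intro v
        by_cases hv : v = d
        · right
          rw [Set.mem_iUnion₂]
          refine ⟨f.1, f.2, fun i => (fun x => σ x (a i)), ?_, ?_⟩
          · intro i _
            exact hσ (a i)
          · funext x
            simp [hv]
        · left
          have : (fun x => Function.update (σ x) d (f.1.2 fun i => σ x (a i)) v)
              = fun x => σ x v := by
            funext x
            simp [Function.update, hv]
          rw [this]
          exact hσ v
      · funext x
        simp [Flowchart.outLe, hi]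
    | test p a y z =>
      right; right
      rw [hC, Set.mem_iUnion₂]
      refine ⟨p.1, p.2, ⟨fun i => (fun x => σ x (a i)),
        (fun x => P.outLe k y (σ x)), (fun x => P.outLe k z (σ x))⟩, ⟨?_, ?_, ?_⟩, ?_⟩
      · intro i _
        exact hσ (a i)
      · exact ⟨P, y, σ, hσ, rfl⟩
      · exact ⟨P, z, σ, hσ, rfl⟩
      · funext x
        simp only [Flowchart.outLe, hi]
        cases p.1.2 (fun i => σ x (a i)) <;> rfl

theorem eventually_update (f : ℕ → ℕ) (x₀ v : ℕ) :
    ∀ᶠ x in atTop, f x = Function.update f x₀ v x := by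
  filter_upwards [eventually_gt_atTop x₀] with x hx
  simp [Function.update, (Nat.ne_of_gt hx)]

theorem not_invAt_of_not_tendsto (hF : F.IsFinite) {t : ℕ → ℕ} (hne : (Cls O F t).Nonempty)
    (hb : ¬ Tendsto t atTop atTop) : ¬ InvAt O F t := by
  intro hinv
  obtain ⟨f₀, hf₀⟩ := hne
  rw [tendsto_atTop] at hb
  push Not at hb
  obtain ⟨b, hb⟩ := hb
  have hfr : ∃ᶠ x in atTop, t x < b := by
    intro h
    apply hb
    filter_upwards [h] with x hx
    omega
  rw [Nat.frequently_atTop_iff_infinite] at hfr
  set S : Set ℕ := {x | t x < b} with hS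
  have hg : ∀ x₀, Function.update f₀ x₀ (f₀ x₀ + 1) ∈ Cls O F t := fun x₀ =>
    hinv f₀ _ hf₀ (eventually_update f₀ x₀ _)
  choose P hPO hPc hPt using hg
  set β : ℕ → (ℕ → Option ℕ) := fun x₀ => fun x => (P x₀).outLe b (P x₀).start (init x) with hβ
  have hmem : ∀ x₀, β x₀ ∈ beh F b {id, fun _ => 0} := by
    intro x₀
    refine ⟨P x₀, (P x₀).start, init, ?_, rfl⟩
    intro v
    by_cases hv : v = 0
    · left
      funext x
      simp [init, hv]
    · right
      rw [Set.mem_singleton_iff]
      funext x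
      simp [init, hv]
  have hfin := beh_finite hF b {id, fun _ => 0} (by simp)
  obtain ⟨β', hβ'⟩ : ∃ β', (S ∩ β ⁻¹' {β'}).Infinite := by
    by_contra hcon
    push Not at hcon
    apply hfr
    refine (hfin.biUnion (fun b' _ => hcon b')).subset ?_
    intro x hx
    rw [Set.mem_iUnion₂]
    exact ⟨β x, hmem x, hx, rfl⟩
  obtain ⟨x₀, hx₀S, hx₀⟩ := hβ'.nonempty
  have hx₀ : β x₀ = β' := hx₀
  have hev : ∀ᶠ x in atTop, x ∈ S → β' x = some (f₀ x) := by
    filter_upwards [hPt x₀, eventually_gt_atTop x₀] with x hx hx1 hxS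
    obtain ⟨k, hk, k', hk', hout⟩ := hx
    have hup : Function.update f₀ x₀ (f₀ x₀ + 1) x = f₀ x := by
      simp [Function.update, (Nat.ne_of_gt hx1)]
    rw [hup] at hout
    rw [← hx₀]
    have hlt : t x < b := hxS
    exact outLe_of_outAt (P x₀) b k' _ _ _ hout (by omega)
  rw [eventually_atTop] at hev
  obtain ⟨N, hN⟩ := hev
  obtain ⟨x₁, ⟨hx₁S, hx₁⟩, hx₁N⟩ := hβ'.exists_gt N
  have hx₁ : β x₁ = β' := hx₁
  have h1 := hN x₁ hx₁N.le hx₁S
  rw [← hx₁] at h1
  obtain ⟨k, hk⟩ := outAt_of_outLe (P x₁) b _ _ _ h1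
  obtain ⟨k₂, hk₂⟩ := hPc x₁ x₁
  have h3 := (halts_unique hk₂ ⟨k, rfl, hk⟩).2
  simp at h3

/-- no flowchart measure is finitely invariant: the bound `2` -/
theorem not_finInv (hO : O.Nonempty) (F : Interp) : ∃ f g : ℕ → ℕ, Computable f ∧ Computable g ∧
    (∀ x, x ≠ 0 → f x = g x) ∧ f ∈ Cls O F (fun _ => 2) ∧ g ∉ Cls O F (fun _ => 2) := by
  obtain ⟨o, ho⟩ := hO
  have hf : Computable (fun x : ℕ => init x o) := by
    by_cases h : o = 0
    · simp only [init, h, if_true]
      exact Computable.id
    · simp only [init, h, if_false]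
      exact Computable.const 0
  refine ⟨fun x => init x o, fun x => if x = 0 then 1 else init x o, hf, ?_, ?_, ?_, ?_⟩
  · have hc : PrimrecPred (fun x : ℕ => x = 0) := PrimrecRel.comp Primrec.eq Primrec.id
      (Primrec.const 0)
    by_cases h : o = 0
    · simp only [init, h, if_true]
      exact (Primrec.ite hc (Primrec.const 1) Primrec.id).to_comp
    · simp only [init, h, if_false]
      exact (Primrec.ite hc (Primrec.const 1) (Primrec.const 0)).to_comp
  · intro x hx
    simp [hx]
  · refine ⟨⟨Unit, inferInstance, (), fun _ => .halt o⟩, ?_, ?_, ?_⟩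
    · rintro n o' h
      simp only [Instr.halt.injEq] at h
      exact h ▸ ho
    · intro x
      exact ⟨2, 1, rfl, by simp [Flowchart.outAt]⟩
    · exact Eventually.of_forall fun x => ⟨2, le_refl _, 1, rfl, by simp [Flowchart.outAt]⟩
  · rintro ⟨P, hPO, hPc, hPt⟩
    rw [eventually_atTop] at hPt
    obtain ⟨N, hN⟩ := hPt
    obtain ⟨k, hk, k', hk', hout⟩ := hN (N + 1) (by omega)
    have hpos := outAt_pos hout
    have hk2 : k ≤ 2 := hk
    have hk1 : k' = 1 := by omega
    subst hk1
    cases hi : P.instr P.start with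
    | halt o' =>
      obtain ⟨j, hj⟩ := hPc 0
      have h0 : P.Halts 0 2 0 := ⟨1, rfl, by simp [Flowchart.outAt, hi, init]⟩
      have := (halts_unique hj h0).2
      simp at this
    | op f a d n' => simp [Flowchart.outAt, hi] at hout
    | test p a y z => simp [Flowchart.outAt, hi] at hout

end Pool.Agent.H269.Flow
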