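import Mathlib
import Pool.Agent.H269.Flow.Base

/-!
# A finite universal interpretation
-/

namespace Pool.Agent.H269.Flow

open Filter Nat.Partrec

/-- successor on the multiples of three -/
def fS (z : ℕ) : ℕ := if z % 3 = 0 then z + 3 else 0

/-- `6 n + 1` and `6 n + 4` are sent to `3 n + 2`, all other numbers to `0` -/
def fA (z : ℕ) : ℕ := if z % 3 = 1 then 3 * (z / 6) + 2 else 0

/-- value of the bounded simulation -/
def ev (p x j : ℕ) : Option ℕ := Code.evaln (j / 3) (Denumerable.ofNat Code (p / 3)) x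

/-- the bounded simulation of the program `p / 3` on `x` with bound `j` has a value `≤ j` -/
def tH (p x j : ℕ) : Bool :=
  decide (p % 3 = 0) && decide (j % 3 = 0) && (ev p x j).isSome && decide ((ev p x j).getD 0 ≤ j)

/-- this value, and `0` if there is none -/
def fU (p x j : ℕ) : ℕ := bif tH p x j then (ev p x j).getD 0 else 0

/-- for `b = 3 n + 2` and `j = 3 i`: the binary digit of `n` with index `2 i` (for `q = false`) or
`2 i + 1` (for `q = true`) -/
def tQ (q : Bool) (b j : ℕ) : Bool :=
  decide (b % 3 = 2) && decide (j % 3 = 0) && (b / 3).testBit (2 * (j / 3) + q.toNat)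

/-- The interpretation: three functions, three predicates. -/
def FB : Interp where
  fns := {⟨1, fun v => fS (v 0)⟩, ⟨1, fun v => fA (v 0)⟩, ⟨3, fun v => fU (v 0) (v 1) (v 2)⟩}
  prs := {⟨2, fun v => tQ false (v 0) (v 1)⟩, ⟨2, fun v => tQ true (v 0) (v 1)⟩,
    ⟨3, fun v => tH (v 0) (v 1) (v 2)⟩}

theorem FB_finite : FB.IsFinite := by
  constructor <;> simp [FB]

theorem prim_app (n : ℕ) (i : Fin n) : Primrec (fun v : Fin n → ℕ => v i) :=
  Primrec.fin_app.comp Primrec.id (Primrec.const i)

theorem prim_fS : Primrec fS := by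
  unfold fS
  exact Primrec.ite (Primrec.eq.comp (Primrec.nat_mod.comp Primrec.id (Primrec.const 3))
    (Primrec.const 0)) (Primrec.nat_add.comp Primrec.id (Primrec.const 3)) (Primrec.const 0)

theorem prim_fA : Primrec fA := by
  unfold fA
  exact Primrec.ite (Primrec.eq.comp (Primrec.nat_mod.comp Primrec.id (Primrec.const 3))
    (Primrec.const 1)) (Primrec.nat_add.comp (Primrec.nat_mul.comp (Primrec.const 3)
      (Primrec.nat_div.comp Primrec.id (Primrec.const 6))) (Primrec.const 2)) (Primrec.const 0)

theorem prim_ev : Primrec (fun v : Fin 3 → ℕ => ev (v 0) (v 1) (v 2)) := by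
  unfold ev
  exact Code.primrec_evaln.comp
    (Primrec.pair (Primrec.pair (Primrec.nat_div.comp (prim_app 3 2) (Primrec.const 3))
      ((Primrec.ofNat Code).comp (Primrec.nat_div.comp (prim_app 3 0) (Primrec.const 3))))
      (prim_app 3 1))

theorem prim_tH : Primrec (fun v : Fin 3 → ℕ => tH (v 0) (v 1) (v 2)) := by
  unfold tH
  refine Primrec.and.comp (Primrec.and.comp (Primrec.and.comp ?_ ?_) ?_) ?_
  · exact (Primrec.eq.comp (Primrec.nat_mod.comp (prim_app 3 0) (Primrec.const 3))
      (Primrec.const 0) : PrimrecPred _).decide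
  · exact (Primrec.eq.comp (Primrec.nat_mod.comp (prim_app 3 2) (Primrec.const 3))
      (Primrec.const 0) : PrimrecPred _).decide
  · exact Primrec.option_isSome.comp prim_ev
  · exact (Primrec.nat_le.comp (Primrec.option_getD.comp prim_ev (Primrec.const 0))
      (prim_app 3 2) : PrimrecPred _).decide

theorem prim_fU : Primrec (fun v : Fin 3 → ℕ => fU (v 0) (v 1) (v 2)) := by
  unfold fU
  exact Primrec.cond prim_tH (Primrec.option_getD.comp prim_ev (Primrec.const 0))
    (Primrec.const 0)

theorem prim_pow : Primrec₂ (fun a b : ℕ => a ^ b) := Primrec₂.unpaired'.1 Nat.Primrec.pow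

theorem prim_testBit {α : Type*} [Primcodable α] {f g : α → ℕ} (hf : Primrec f)
    (hg : Primrec g) : Primrec (fun a => (f a).testBit (g a)) := by
  have h : (fun a => (f a).testBit (g a)) = fun a => decide (f a / 2 ^ g a % 2 = 1) := by
    funext a
    rw [Nat.testBit_eq_decide_div_mod_eq]
  rw [h]
  exact (Primrec.eq.comp (Primrec.nat_mod.comp (Primrec.nat_div.comp hf
    (prim_pow.comp (Primrec.const 2) hg)) (Primrec.const 2)) (Primrec.const 1) :
      PrimrecPred _).decide

theorem prim_tQ (q : Bool) : Primrec (fun v : Fin 2 → ℕ => tQ q (v 0) (v 1)) := by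
  unfold tQ
  refine Primrec.and.comp (Primrec.and.comp ?_ ?_) ?_
  · exact (Primrec.eq.comp (Primrec.nat_mod.comp (prim_app 2 0) (Primrec.const 3))
      (Primrec.const 2) : PrimrecPred _).decide
  · exact (Primrec.eq.comp (Primrec.nat_mod.comp (prim_app 2 1) (Primrec.const 3))
      (Primrec.const 0) : PrimrecPred _).decide
  · exact prim_testBit (Primrec.nat_div.comp (prim_app 2 0) (Primrec.const 3))
      (Primrec.nat_add.comp (Primrec.nat_mul.comp (Primrec.const 2)
        (Primrec.nat_div.comp (prim_app 2 1) (Primrec.const 3))) (Primrec.const q.toNat))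

theorem FB_recursive : FB.Recursive := by
  constructor
  · rintro f (rfl | rfl | rfl)
    · exact (prim_fS.comp (prim_app 1 0)).to_comp
    · exact (prim_fA.comp (prim_app 1 0)).to_comp
    · exact prim_fU.to_comp
  · rintro p (rfl | rfl | rfl)
    · exact (prim_tQ false).to_comp
    · exact (prim_tQ true).to_comp
    · exact prim_tH.to_comp

/-- the three functions and three predicates as symbols -/
def oS : FB.fns := ⟨⟨1, fun v => fS (v 0)⟩, by simp [FB]⟩
def oA : FB.fns := ⟨⟨1, fun v => fA (v 0)⟩, by simp [FB]⟩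
def oU : FB.fns := ⟨⟨3, fun v => fU (v 0) (v 1) (v 2)⟩, by simp [FB]⟩
def oT : FB.prs := ⟨⟨2, fun v => tQ false (v 0) (v 1)⟩, by simp [FB]⟩
def oY : FB.prs := ⟨⟨2, fun v => tQ true (v 0) (v 1)⟩, by simp [FB]⟩
def oH : FB.prs := ⟨⟨3, fun v => tH (v 0) (v 1) (v 2)⟩, by simp [FB]⟩

/-- the universal flowchart with the program `p` built in -/
def uni (p : ℕ) : Flowchart FB where
  Node := Fin (p + 1) ⊕ Fin 3
  fin := inferInstance
  start := .inl 0
  instr := fun q => match q with
    | .inl i => if h : i.val < p then .op oS (fun _ => 1) 1 (.inl ⟨i.val + 1, by omega⟩)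
        else .op oS (fun _ => 2) 2 (.inr 0)
    | .inr ⟨0, _⟩ => .test oH ![1, 0, 2] (.inr 1) (.inl ⟨p, by omega⟩)
    | .inr ⟨1, _⟩ => .op oU ![1, 0, 2] 0 (.inr 2)
    | .inr _ => .halt 0

theorem uni_outIn (p : ℕ) : (uni p).OutIn {0} := by
  intro n o h
  rcases n with i | i
  · simp only [uni] at h
    split_ifs at h
  · fin_cases i <;> simp [uni] at h
    exact h.symm

theorem uni_left (p : ℕ) (i : ℕ) (hi : i < p) (k : ℕ) (s : ℕ → ℕ) :
    (uni p).outAt (k + 1) (Sum.inl ⟨i, by omega⟩) s =
      (uni p).outAt k (Sum.inl ⟨i + 1, by omega⟩) (Function.update s 1 (fS (s 1))) := by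
  have h : (uni p).instr (Sum.inl ⟨i, by omega⟩) =
      .op oS (fun _ => 1) 1 (.inl ⟨i + 1, by omega⟩) := by
    simp [uni, hi]
  rw [outAt_op h]
  rfl

theorem uni_loop (p : ℕ) (k : ℕ) (s : ℕ → ℕ) :
    (uni p).outAt (k + 1) (Sum.inl ⟨p, by omega⟩) s =
      (uni p).outAt k (Sum.inr 0) (Function.update s 2 (fS (s 2))) := by
  have h : (uni p).instr (Sum.inl ⟨p, by omega⟩) = .op oS (fun _ => 2) 2 (.inr 0) := by
    simp [uni]
  rw [outAt_op h]
  rfl

theorem uni_test (p : ℕ) (k : ℕ) (s : ℕ → ℕ) :
    (uni p).outAt (k + 1) (Sum.inr 0) s =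
      bif tH (s 1) (s 0) (s 2) then (uni p).outAt k (Sum.inr 1) s
        else (uni p).outAt k (Sum.inl ⟨p, by omega⟩) s := by
  have h : (uni p).instr (Sum.inr 0) = .test oH ![1, 0, 2] (.inr 1) (.inl ⟨p, by omega⟩) := rfl
  rw [outAt_test h]
  have h2 : oH.1.2 (fun i => s ((![1, 0, 2] : Fin 3 → ℕ) i)) = tH (s 1) (s 0) (s 2) := rfl
  rw [h2]
  cases tH (s 1) (s 0) (s 2) <;> rfl

theorem uni_U (p : ℕ) (k : ℕ) (s : ℕ → ℕ) :
    (uni p).outAt (k + 1) (Sum.inr 1) s =
      (uni p).outAt k (Sum.inr 2) (Function.update s 0 (fU (s 1) (s 0) (s 2))) := by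
  have h : (uni p).instr (Sum.inr 1) = .op oU ![1, 0, 2] 0 (.inr 2) := rfl
  rw [outAt_op h]
  rfl

theorem uni_halt (p : ℕ) (k : ℕ) (s : ℕ → ℕ) :
    (uni p).outAt (k + 1) (Sum.inr 2) s = if k = 0 then some (s 0) else none := by
  have h : (uni p).instr (Sum.inr 2) = .halt 0 := rfl
  rw [outAt_halt h]

theorem fU_of_tH {p x j : ℕ} (h : tH p x j = true) :
    ∃ v, ev p x j = some v ∧ fU p x j = v ∧ v ≤ j := by
  unfold fU
  rw [h]
  simp only [tH, Bool.and_eq_true, decide_eq_true_eq] at h
  obtain ⟨v, hv⟩ := Option.isSome_iff_exists.1 h.1.2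
  rw [hv] at h ⊢
  exact ⟨v, rfl, rfl, by simpa using h.2⟩

theorem tH_of_mem {c : Code} {x v j : ℕ} (h : v ∈ Code.evaln j c x) (hv : v ≤ 3 * j) :
    tH (3 * Encodable.encode c) x (3 * j) = true := by
  have h1 : ev (3 * Encodable.encode c) x (3 * j) = some v := by
    unfold ev
    rw [Nat.mul_div_cancel_left _ (by omega), Nat.mul_div_cancel_left _ (by omega),
      Denumerable.ofNat_encode]
    exact h
  unfold tH
  rw [h1]
  simp [hv]

theorem fU_sound {c : Code} {x j : ℕ} (h : tH (3 * Encodable.encode c) x j = true) :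
    fU (3 * Encodable.encode c) x j ∈ Code.eval c x := by
  obtain ⟨v, hv, hv', -⟩ := fU_of_tH h
  rw [hv']
  unfold ev at hv
  rw [Nat.mul_div_cancel_left _ (by omega), Denumerable.ofNat_encode] at hv
  exact Code.evaln_sound hv

theorem uni_sound (c : Code) (x v : ℕ) : ∀ (k : ℕ) (s : ℕ → ℕ), s 0 = x →
    s 1 = 3 * Encodable.encode c →
    (uni (Encodable.encode c)).outAt k (Sum.inl ⟨Encodable.encode c, by omega⟩) s = some v →
    v ∈ Code.eval c x := by
  intro k
  induction k using Nat.strong_induction_on with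
  | _ k ih =>
    intro s h0 h1 h
    match k, ih, h with
    | 0, _, h => simp [Flowchart.outAt] at h
    | 1, _, h => rw [uni_loop] at h; simp [Flowchart.outAt] at h
    | k + 2, ih, h =>
      rw [uni_loop, uni_test] at h
      set s₂ := Function.update s 2 (fS (s 2)) with hs₂
      have e0 : s₂ 0 = x := by simp [hs₂, h0]
      have e1 : s₂ 1 = 3 * Encodable.encode c := by simp [hs₂, h1]
      cases ht : tH (s₂ 1) (s₂ 0) (s₂ 2) with
      | true =>
        rw [ht, cond_true] at h
        match k, h with
        | 0, h => simp [Flowchart.outAt] at h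
        | 1, h => rw [uni_U] at h; simp [Flowchart.outAt] at h
        | k + 2, h =>
          rw [uni_U, uni_halt] at h
          by_cases hk : k = 0
          · simp only [hk, if_true, Function.update_self, Option.some.injEq] at h
            rw [← h]
            rw [e0, e1] at ht ⊢
            exact fU_sound ht
          · simp [hk] at h
      | false =>
        rw [ht, cond_false] at h
        exact ih k (by omega) s₂ e0 e1 h

theorem uni_complete (c : Code) (x : ℕ) : ∀ (m j : ℕ) (s : ℕ → ℕ), s 0 = x →
    s 1 = 3 * Encodable.encode c → s 2 = 3 * j →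
    tH (3 * Encodable.encode c) x (3 * (j + m + 1)) = true →
    ∃ k v, (uni (Encodable.encode c)).outAt k (Sum.inl ⟨Encodable.encode c, by omega⟩) s
      = some v := by
  intro m
  induction m with
  | zero =>
    intro j s h0 h1 h2 ht
    refine ⟨4, fU (3 * Encodable.encode c) x (3 * (j + 1)), ?_⟩
    rw [uni_loop, uni_test]
    have e2 : fS (s 2) = 3 * (j + 1) := by
      unfold fS
      rw [h2]
      simp
      omega
    simp only [Function.update_self, e2]
    have e1 : Function.update s 2 (3 * (j + 1)) 1 = 3 * Encodable.encode c := by simp [h1]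
    have e0 : Function.update s 2 (3 * (j + 1)) 0 = x := by simp [h0]
    rw [e0, e1]
    rw [Nat.add_zero] at ht
    rw [ht, cond_true, uni_U, uni_halt]
    simp only [if_true, Function.update_self, e0, e1]
  | succ m ih =>
    intro j s h0 h1 h2 ht
    have e2 : fS (s 2) = 3 * (j + 1) := by
      unfold fS
      rw [h2]
      simp
      omega
    have e1 : Function.update s 2 (3 * (j + 1)) 1 = 3 * Encodable.encode c := by simp [h1]
    have e0 : Function.update s 2 (3 * (j + 1)) 0 = x := by simp [h0]
    cases hc : tH (3 * Encodable.encode c) x (3 * (j + 1)) with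
    | true =>
      refine ⟨4, fU (3 * Encodable.encode c) x (3 * (j + 1)), ?_⟩
      rw [uni_loop, uni_test]
      simp only [Function.update_self, e2]
      rw [e0, e1, hc, cond_true, uni_U, uni_halt]
      simp only [if_true, Function.update_self, e0, e1]
    | false =>
      obtain ⟨k, v, hk⟩ := ih (j + 1) (Function.update s 2 (3 * (j + 1))) e0 e1
        (by simp) (by rw [show j + 1 + m + 1 = j + (m + 1) + 1 by omega]; exact ht)
      refine ⟨k + 2, v, ?_⟩
      rw [uni_loop, uni_test]
      simp only [Function.update_self, e2]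
      rw [e0, e1, hc, cond_false]
      exact hk

/-- the prefix of the run: the numeral is built up -/
theorem uni_prefix (p : ℕ) (x : ℕ) (i : ℕ) (hi : i ≤ p) (k : ℕ) :
    (uni p).outAt (k + (p - i)) (Sum.inl ⟨i, by omega⟩) (Function.update (init x) 1 (3 * i)) =
      (uni p).outAt k (Sum.inl ⟨p, by omega⟩) (Function.update (init x) 1 (3 * p)) := by
  obtain ⟨d, hd⟩ : ∃ d, d = p - i := ⟨_, rfl⟩
  induction d generalizing i with
  | zero =>
    have : i = p := by omega
    subst this
    simp
  | succ d ih =>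
    have h1 : k + (p - i) = k + (p - (i + 1)) + 1 := by omega
    rw [h1, uni_left p i (by omega)]
    have h2 : Function.update (Function.update (init x) 1 (3 * i)) 1
        (fS (Function.update (init x) 1 (3 * i) 1)) = Function.update (init x) 1 (3 * (i + 1)) := by
      simp only [Function.update_self, Function.update_idem]
      congr 1
      unfold fS
      simp
      omega
    rw [h2]
    exact ih (i + 1) (by omega) (by omega)

theorem uni_start (p x : ℕ) (k : ℕ) :
    (uni p).outAt (k + p) (uni p).start (init x) =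
      (uni p).outAt k (Sum.inl ⟨p, by omega⟩) (Function.update (init x) 1 (3 * p)) := by
  have h := uni_prefix p x 0 (Nat.zero_le _) k
  rw [← h]
  have : Function.update (init x) 1 (3 * 0) = init x := by
    funext i
    by_cases hi : i = 1
    · subst hi; simp [init]
    · simp [Function.update, hi]
  rw [this, Nat.sub_zero]
  rfl

/-- short runs do not leave the prefix -/
theorem uni_short (p : ℕ) (i : ℕ) (hi : i ≤ p) (k : ℕ) (hk : k ≤ p - i) (s : ℕ → ℕ) (v : ℕ) :
    (uni p).outAt k (Sum.inl ⟨i, by omega⟩) s ≠ some v := by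
  induction k generalizing i s with
  | zero => simp [Flowchart.outAt]
  | succ k ih =>
    rw [uni_left p i (by omega)]
    exact ih (i + 1) (by omega) (by omega) _

theorem FB_universal : Universal {0} FB := by
  intro f hf
  obtain ⟨c, hc⟩ := Code.exists_code.1 hf
  subst hc
  refine ⟨uni (Encodable.encode c), uni_outIn _, ?_⟩
  intro x v
  have hs0 : Function.update (init x) 1 (3 * Encodable.encode c) 0 = x := by simp [init]
  have hs1 : Function.update (init x) 1 (3 * Encodable.encode c) 1 = 3 * Encodable.encode c := by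
    simp
  have hs2 : Function.update (init x) 1 (3 * Encodable.encode c) 2 = 3 * 0 := by simp [init]
  constructor
  · intro hv
    obtain ⟨k₀, hk₀⟩ := Code.evaln_complete.1 hv
    have hk₁ : v ∈ Code.evaln (k₀ + v + 1) c x := Code.evaln_mono (by omega) hk₀
    have ht := tH_of_mem hk₁ (by omega)
    obtain ⟨k, v', hk⟩ := uni_complete c x (k₀ + v) 0 _ hs0 hs1 hs2 (by
      rw [Nat.zero_add]; exact ht)
    have hv' := uni_sound c x v' k _ hs0 hs1 hk
    have : v' = v := Part.mem_unique hv' hv
    subst this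
    refine ⟨k + Encodable.encode c + 1, k + Encodable.encode c, rfl, ?_⟩
    rw [uni_start]
    exact hk
  · rintro ⟨_, k, rfl, hk⟩
    by_cases hkp : k ≤ Encodable.encode c
    · exact absurd hk (uni_short _ 0 (Nat.zero_le _) k (by omega) _ v)
    · obtain ⟨k', rfl⟩ : ∃ k', k = k' + Encodable.encode c := ⟨k - Encodable.encode c, by omega⟩
      rw [uni_start] at hk
      exact uni_sound c x v k' _ hs0 hs1 hk

end Pool.Agent.H269.Flow
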