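import Mathlib
import Pool.Agent.H269.Flow.Prog

/-!
# The lower bound for runs over `FB` whose output is in the input variable
-/

namespace Pool.Agent.H269.Flow

open Filter Nat.Partrec

variable {N : Type}

section

variable {x b : ℕ} (hx : x % 3 = 1) (hb : b = 3 * (x / 6) + 2)

include hx hb

/-- indices of informative tests are at most the number of successor steps -/
theorem idx_le (ci : N → CI N) : ∀ (k : ℕ) (n : N) (s : ℕ → ℕ) (c : ℕ),
    3 * (c + k) + 2 < b → (∀ u, s u = x ∨ s u = b ∨ s u ≤ 3 * c + 2) →
    ∀ τ ∈ cT ci b k n s, τ.2 ≤ c + nS ci k n s := by
  intro k
  induction k with
  | zero => intro n s c _ _ τ h; simp [cT] at h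
  | succ k ih =>
    intro n s c hc hG τ hτ
    have upd : ∀ (c' d w : ℕ), c ≤ c' → w = x ∨ w = b ∨ w ≤ 3 * c' + 2 →
        ∀ u, Function.update s d w u = x ∨ Function.update s d w u = b ∨
          Function.update s d w u ≤ 3 * c' + 2 := by
      intro c' d w hc' hw u
      by_cases hu : u = d
      · subst hu
        simpa using hw
      · rw [Function.update_of_ne hu]
        rcases hG u with h | h | h <;> omega
    cases hi : ci n with
    | opS u d n' =>
      simp only [cT, nS, hi] at hτ ⊢
      have := ih _ _ (c + 1) (by omega) (upd (c + 1) d (fS (s u)) (by omega) (by
        unfold fS
        rcases hG u with h | h | h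
        · rw [if_neg (by omega)]; omega
        · rw [if_neg (by omega)]; omega
        · split_ifs <;> omega)) τ hτ
      omega
    | opA u d n' =>
      simp only [cT, nS, hi] at hτ ⊢
      exact ih _ _ c (by omega) (upd c d (fA (s u)) (by omega) (by
        unfold fA
        rcases hG u with h | h | h
        · rw [if_pos (by omega)]; right; left; rw [h]; exact hb.symm
        · rw [if_neg (by omega)]; omega
        · right; right; split_ifs <;> omega)) τ hτ
    | opU p y j d n' =>
      simp only [cT, nS, hi] at hτ ⊢
      refine ih _ _ c (by omega) (upd c d _ (by omega) ?_) τ hτ
      right; right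
      rcases hG j with h | h | h
      · have : tH (s p) (s y) (s j) = false := by
          cases ht : tH (s p) (s y) (s j) with
          | false => rfl
          | true => have := tH_imp ht; omega
        rw [fU_zero this]; omega
      · have : tH (s p) (s y) (s j) = false := by
          cases ht : tH (s p) (s y) (s j) with
          | false => rfl
          | true => have := tH_imp ht; omega
        rw [fU_zero this]; omega
      · exact (fU_le _ _ _).trans h
    | tst q u w y z =>
      simp only [cT, nS, hi, Finset.mem_union] at hτ ⊢
      rcases hτ with hτ | hτ
      · split_ifs at hτ with hcond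
        · rw [Finset.mem_singleton] at hτ
          subst hτ
          rcases hG w with h | h | h
          · omega
          · omega
          · simp only
            omega
        · simp at hτ
      · exact ih _ _ c (by omega) hG τ hτ
    | tstH p y j y' z =>
      simp only [cT, nS, hi] at hτ ⊢
      exact ih _ _ c (by omega) hG τ hτ
    | halt o => simp [cT, hi] at hτ

/-- without `fA` the value `b` cannot get into the variable `0` -/
theorem no_A (ci : N → CI N) (hO : ∀ n o, ci n = .halt o → o = 0) :
    ∀ (k : ℕ) (n : N) (s : ℕ → ℕ) (c : ℕ),
    3 * (c + k) + 2 < b → (∀ u, s u = x ∨ s u = b ∨ s u ≤ 3 * c + 2) →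
    cOut ci k n s = some b → nA ci k n s = 0 → s 0 = b := by
  intro k
  induction k with
  | zero => intro n s c _ _ h _; simp [cOut] at h
  | succ k ih =>
    intro n s c hc hG h hA
    have upd : ∀ (c' d w : ℕ), c ≤ c' → w = x ∨ w = b ∨ w ≤ 3 * c' + 2 →
        ∀ u, Function.update s d w u = x ∨ Function.update s d w u = b ∨
          Function.update s d w u ≤ 3 * c' + 2 := by
      intro c' d w hc' hw u
      by_cases hu : u = d
      · subst hu
        simpa using hw
      · rw [Function.update_of_ne hu]
        rcases hG u with h | h | h <;> omega
    cases hi : ci n with
    | opS u d n' =>
      simp only [cOut, nA, hi] at h hA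
      have hval : fS (s u) ≤ 3 * (c + 1) + 2 := by
        unfold fS
        rcases hG u with h | h | h
        · rw [if_neg (by omega)]; omega
        · rw [if_neg (by omega)]; omega
        · split_ifs <;> omega
      have := ih _ _ (c + 1) (by omega) (upd (c + 1) d (fS (s u)) (by omega)
        (Or.inr (Or.inr hval))) h hA
      by_cases hd : (0 : ℕ) = d
      · subst hd
        rw [Function.update_self] at this
        omega
      · rwa [Function.update_of_ne hd] at this
    | opA u d n' =>
      simp only [nA, hi] at hA
      omega
    | opU p y j d n' =>
      simp only [cOut, nA, hi] at h hA
      have hval : fU (s p) (s y) (s j) ≤ 3 * c + 2 := by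
        rcases hG j with h | h | h
        · have : tH (s p) (s y) (s j) = false := by
            cases ht : tH (s p) (s y) (s j) with
            | false => rfl
            | true => have := tH_imp ht; omega
          rw [fU_zero this]; omega
        · have : tH (s p) (s y) (s j) = false := by
            cases ht : tH (s p) (s y) (s j) with
            | false => rfl
            | true => have := tH_imp ht; omega
          rw [fU_zero this]; omega
        · exact (fU_le _ _ _).trans h
      have := ih _ _ c (by omega) (upd c d _ (by omega) (Or.inr (Or.inr hval))) h hA
      by_cases hd : (0 : ℕ) = d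
      · subst hd
        rw [Function.update_self] at this
        omega
      · rwa [Function.update_of_ne hd] at this
    | tst q u w y z =>
      simp only [cOut, nA, hi] at h hA
      exact ih _ _ c (by omega) hG h hA
    | tstH p y j y' z =>
      simp only [cOut, nA, hi] at h hA
      exact ih _ _ c (by omega) hG h hA
    | halt o =>
      simp only [cOut, hi] at h
      by_cases hk : k = 0
      · simp only [hk, if_true, Option.some.injEq] at h
        rw [hO n o hi] at h
        exact h
      · simp [hk] at h

omit hx hb in
/-- from small values only small values arise -/
theorem all_small (ci : N → CI N) : ∀ (k : ℕ) (n : N) (s : ℕ → ℕ) (c v : ℕ),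
    (∀ u, s u ≤ 3 * c + 2) → cOut ci k n s = some v → v ≤ 3 * (c + k) + 2 := by
  intro k
  induction k with
  | zero => intro n s c v _ h; simp [cOut] at h
  | succ k ih =>
    intro n s c v hG h
    have upd : ∀ (d w : ℕ), w ≤ 3 * (c + 1) + 2 →
        ∀ u, Function.update s d w u ≤ 3 * (c + 1) + 2 := by
      intro d w hw u
      by_cases hu : u = d
      · subst hu
        simpa using hw
      · rw [Function.update_of_ne hu]
        have := hG u
        omega
    cases hi : ci n with
    | opS u d n' =>
      simp only [cOut, hi] at h
      have := ih _ _ (c + 1) v (upd d (fS (s u)) (by
        have := hG u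
        unfold fS
        split_ifs <;> omega)) h
      omega
    | opA u d n' =>
      simp only [cOut, hi] at h
      have := ih _ _ (c + 1) v (upd d (fA (s u)) (by
        have := hG u
        unfold fA
        split_ifs <;> omega)) h
      omega
    | opU p y j d n' =>
      simp only [cOut, hi] at h
      have := ih _ _ (c + 1) v (upd d _ (by
        have := hG j
        have := fU_le (s p) (s y) (s j)
        omega)) h
      omega
    | tst q u w y z =>
      simp only [cOut, hi] at h
      have := ih _ _ c v hG h
      omega
    | tstH p y j y' z =>
      simp only [cOut, hi] at h
      have := ih _ _ c v hG h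
      omega
    | halt o =>
      simp only [cOut, hi] at h
      by_cases hk : k = 0
      · simp only [hk, if_true, Option.some.injEq] at h
        have := hG o
        omega
      · simp [hk] at h

/-- a run without waste forgets the difference between `6 n + 1` and `6 n + 4` -/
theorem forget (ci : N → CI N) (hO : ∀ n o, ci n = .halt o → o = 0) (x₁ x₂ : ℕ)
    (h₁ : x₁ % 3 = 1) (h₂ : x₂ % 3 = 1) (h₁₂ : x₁ / 6 = x₂ / 6) :
    ∀ (k : ℕ) (n : N) (s : ℕ → ℕ) (c : ℕ),
    3 * (c + k) + 2 < b → s 0 = x → (∀ u, u ≠ 0 → s u ≤ 3 * c + 2) →
    cOut ci k n s = some b → nA ci k n s = 1 →
    1 + nS ci k n s + nA ci k n s + (cT ci b k n s).card = k →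
    ∀ k', cOut ci k' n (Function.update s 0 x₁) = cOut ci k' n (Function.update s 0 x₂) := by
  intro k
  induction k with
  | zero => intro n s c _ _ _ h _ _; simp [cOut] at h
  | succ k ih =>
    intro n s c hc hs0 hG h hA hk k'
    cases hi : ci n with
    | opS u d n' =>
      simp only [cOut, nA, nS, cT, hi] at h hA hk
      have hval : fS (s u) ≤ 3 * (c + 1) + 2 := by
        unfold fS
        by_cases hu : u = 0
        · rw [hu, hs0, if_neg (by omega)]; omega
        · have := hG u hu
          split_ifs <;> omega
      by_cases hd : d = 0
      · exfalso
        have := all_small ci k n' _ (c + 1) b (by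
          intro w
          by_cases hw : w = d
          · subst hw
            rw [Function.update_self]
            exact hval
          · rw [Function.update_of_ne hw]
            have := hG w (by omega)
            omega) h
        omega
      · have h' := ih n' (Function.update s d (fS (s u))) (c + 1) (by omega)
          (by rw [Function.update_of_ne (Ne.symm hd)]; exact hs0)
          (by
            intro w hw0
            by_cases hw : w = d
            · subst hw
              rw [Function.update_self]
              exact hval
            · rw [Function.update_of_ne hw]
              have := hG w hw0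
              omega) h hA (by omega)
        cases k' with
        | zero => rfl
        | succ k' =>
          simp only [cOut, hi]
          have e : ∀ x' : ℕ, x' % 3 = 1 →
              Function.update (Function.update s 0 x') d (fS (Function.update s 0 x' u)) =
              Function.update (Function.update s d (fS (s u))) 0 x' := by
            intro x' hx'
            have e1 : fS (Function.update s 0 x' u) = fS (s u) := by
              by_cases hu : u = 0
              · rw [hu, Function.update_self, hs0]
                unfold fS
                rw [if_neg (by omega), if_neg (by omega)]
              · rw [Function.update_of_ne hu]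
            rw [e1, Function.update_comm hd]
          rw [e x₁ h₁, e x₂ h₂]
          exact h' k'
    | opA u d n' =>
      simp only [cOut, nA, nS, cT, hi] at h hA hk
      have hA' : nA ci k n' (Function.update s d (fA (s u))) = 0 := by omega
      have hG' : ∀ w, s w = x ∨ s w = b ∨ s w ≤ 3 * c + 2 := by
        intro w
        by_cases hw : w = 0
        · left; rw [hw, hs0]
        · right; right; exact hG w hw
      have h0 := no_A hx hb ci hO k n' _ c (by omega) (by
        intro w
        by_cases hw : w = d
        · subst hw
          rw [Function.update_self]
          unfold fA
          rcases hG' u with h | h | h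
          · rw [if_pos (by omega)]; right; left; rw [h]; exact hb.symm
          · rw [if_neg (by omega)]; omega
          · right; right; split_ifs <;> omega
        · rw [Function.update_of_ne hw]
          exact hG' w) h hA'
      by_cases hd : d = 0
      · subst hd
        rw [Function.update_self] at h0
        have hu : u = 0 := by
          by_contra hu
          have := hG u hu
          unfold fA at h0
          split_ifs at h0 <;> omega
        subst hu
        cases k' with
        | zero => rfl
        | succ k' =>
          simp only [cOut, hi]
          have e : ∀ x' : ℕ, x' % 3 = 1 →
              Function.update (Function.update s 0 x') 0 (fA (Function.update s 0 x' 0)) =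
              Function.update s 0 (3 * (x' / 6) + 2) := by
            intro x' hx'
            rw [Function.update_self, Function.update_idem]
            unfold fA
            rw [if_pos hx']
          rw [e x₁ h₁, e x₂ h₂, h₁₂]
      · rw [Function.update_of_ne (Ne.symm hd), hs0] at h0
        omega
    | opU p y j d n' =>
      simp only [cOut, nA, nS, cT, hi] at h hA hk
      have := count_le ci b k _ _ _ h
      omega
    | tst q u w y z =>
      simp only [cOut, nA, nS, cT, hi] at h hA hk
      have := count_le ci b k _ _ _ h
      rw [if_neg, Finset.empty_union] at hk
      · omega
      · rintro ⟨h1, -⟩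
        by_cases hu : u = 0
        · rw [hu, hs0] at h1
          omega
        · have := hG u hu
          omega
    | tstH p y j y' z =>
      simp only [cOut, nA, nS, cT, hi] at h hA hk
      have := count_le ci b k _ _ _ h
      omega
    | halt o =>
      simp only [nA, hi] at hA
      omega

end

end Pool.Agent.H269.Flow
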