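import Mathlib
import Pool.Agent.H269.Flow.Lower

/-!
# A function whose finite variation costs one more step
-/

namespace Pool.Agent.H269.Flow

open Filter Nat.Partrec

theorem exJ (n : ℕ) : ∃ j, n.testBit (2 * j) = false :=
  ⟨n, Nat.testBit_lt_two_pow (lt_of_lt_of_le Nat.lt_two_pow_self
    (Nat.pow_le_pow_right (by omega) (by omega)))⟩

/-- the least `j` such that the binary digit of `n` with index `2 j` is `0` -/
def J (n : ℕ) : ℕ := Nat.find (exJ n)

theorem J_spec (n : ℕ) : n.testBit (2 * J n) = false := Nat.find_spec (exJ n)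

theorem J_min {n j : ℕ} (h : j < J n) : n.testBit (2 * j) = true := by
  have := Nat.find_min (exJ n) h
  simpa using this

theorem J_eq {n k : ℕ} (h1 : ∀ j < k, n.testBit (2 * j) = true) (h2 : n.testBit (2 * k) = false) :
    J n = k := by
  unfold J
  rw [Nat.find_eq_iff]
  refine ⟨h2, fun j hj => ?_⟩
  rw [h1 j hj]
  simp

theorem J_computable : Computable J := by
  have h1 : Partrec (fun n : ℕ => Nat.rfind (fun j => (Part.some (!(n.testBit (2 * j)))) : ℕ →. Bool)) := by
    refine Partrec.rfind ?_
    have : Primrec₂ (fun n j : ℕ => !(n.testBit (2 * j))) :=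
      Primrec.not.comp (prim_testBit Primrec.fst
        (Primrec.nat_mul.comp (Primrec.const 2) Primrec.snd))
    exact this.to_comp.partrec.to₂
  refine Partrec.of_eq h1 ?_
  intro n
  refine Part.eq_some_iff.2 ((Nat.mem_rfind (p := fun j => Part.some (!(n.testBit (2 * j))))).2
    ⟨?_, ?_⟩)
  · simp [J_spec]
  · intro m hm
    simp [J_min hm]

/-- the numbers `(7 * 4 ^ k - 1) / 3` -/
def tn : ℕ → ℕ
  | 0 => 2
  | k + 1 => 4 * tn k + 1

theorem tn_eq (k : ℕ) : 3 * tn k + 1 = 7 * 4 ^ k := by
  induction k with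
  | zero => rfl
  | succ k ih =>
    rw [tn, pow_succ]
    omega

theorem testBit_four (m i : ℕ) : (4 * m + 1).testBit (i + 2) = m.testBit i := by
  rw [Nat.testBit_succ, Nat.testBit_succ]
  congr 1
  omega

theorem tn_even : ∀ k j, (tn k).testBit (2 * j) = decide (j < k) := by
  intro k
  induction k with
  | zero =>
    intro j
    have : (2 : ℕ) = 2 ^ 1 := rfl
    rw [tn, this, Nat.testBit_two_pow, decide_eq_decide]
    omega
  | succ k ih =>
    intro j
    rw [tn]
    cases j with
    | zero =>
      rw [Nat.mul_zero, Nat.testBit_zero, decide_eq_decide]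
      omega
    | succ j =>
      rw [show 2 * (j + 1) = 2 * j + 2 by ring, testBit_four, ih]
      simp

theorem tn_odd : ∀ k j, (tn k).testBit (2 * j + 1) = decide (j = k) := by
  intro k
  induction k with
  | zero =>
    intro j
    have : (2 : ℕ) = 2 ^ 1 := rfl
    rw [tn, this, Nat.testBit_two_pow, decide_eq_decide]
    omega
  | succ k ih =>
    intro j
    rw [tn]
    cases j with
    | zero =>
      rw [Nat.mul_zero, Nat.zero_add, Nat.testBit_succ, Nat.testBit_zero, decide_eq_decide]
      omega
    | succ j =>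
      rw [show 2 * (j + 1) + 1 = 2 * j + 1 + 2 by ring, testBit_four, ih]
      simp

/-- the function -/
def fP (x : ℕ) : ℕ :=
  if x % 3 = 1 then (if (x / 6).testBit (2 * J (x / 6) + 1) then 3 * (x / 6) + 2 else 0) else 3

/-- the time bound -/
def tP (x : ℕ) : ℕ :=
  if x % 6 = 1 ∧ 3 * (x / 6) + 1 = 7 * 4 ^ J (x / 6) then 2 * J (x / 6) + 5
  else 2 * J (x / 6) + 6 + x

theorem J6_computable : Computable (fun x : ℕ => J (x / 6)) :=
  J_computable.comp (Primrec.nat_div.comp Primrec.id (Primrec.const 6)).to_comp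

theorem fP_computable : Computable fP := by
  have h6 : Primrec (fun x : ℕ => x / 6) := Primrec.nat_div.comp Primrec.id (Primrec.const 6)
  have hb : Computable (fun x : ℕ => (x / 6).testBit (2 * J (x / 6) + 1)) := by
    have h : Primrec (fun y : ℕ × ℕ => (y.1 / 6).testBit (2 * y.2 + 1)) :=
      prim_testBit (f := fun y : ℕ × ℕ => y.1 / 6) (g := fun y : ℕ × ℕ => 2 * y.2 + 1)
        (h6.comp Primrec.fst) (Primrec.nat_add.comp (Primrec.nat_mul.comp
        (Primrec.const 2) Primrec.snd) (Primrec.const 1))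
    have h' := h.to_comp.comp (Computable.id.pair J6_computable)
    exact h'.of_eq (fun x => by simp only [id])
  have hc : Computable (fun x : ℕ => decide (x % 3 = 1)) :=
    ((Primrec.eq.comp (Primrec.nat_mod.comp Primrec.id (Primrec.const 3))
      (Primrec.const 1) : PrimrecPred _).decide).to_comp
  have h := Computable.cond hc (Computable.cond hb
    (Primrec.nat_add.comp (Primrec.nat_mul.comp (Primrec.const 3) h6)
      (Primrec.const 2)).to_comp (Computable.const 0)) (Computable.const 3)
  refine h.of_eq ?_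
  intro x
  unfold fP
  by_cases h1 : x % 3 = 1
  · simp only [h1, decide_true, cond_true, if_true]
    cases (x / 6).testBit (2 * J (x / 6) + 1) <;> simp
  · simp [h1]

theorem tP_computable : Computable tP := by
  have h6 : Primrec (fun x : ℕ => x / 6) := Primrec.nat_div.comp Primrec.id (Primrec.const 6)
  have hc : Primrec (fun y : ℕ × ℕ => decide (y.1 % 6 = 1) && decide (3 * (y.1 / 6) + 1 =
      7 * 4 ^ y.2)) := by
    refine Primrec.and.comp ?_ ?_
    · exact (Primrec.eq.comp (Primrec.nat_mod.comp Primrec.fst (Primrec.const 6))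
        (Primrec.const 1) : PrimrecPred _).decide
    · exact (Primrec.eq.comp (Primrec.nat_add.comp (Primrec.nat_mul.comp (Primrec.const 3)
        (h6.comp Primrec.fst)) (Primrec.const 1)) (Primrec.nat_mul.comp (Primrec.const 7)
          (prim_pow.comp (Primrec.const 4) Primrec.snd)) : PrimrecPred _).decide
  have h2 : Primrec (fun y : ℕ × ℕ => 2 * y.2 + 5) := Primrec.nat_add.comp
    (Primrec.nat_mul.comp (Primrec.const 2) Primrec.snd) (Primrec.const 5)
  have h3 : Primrec (fun y : ℕ × ℕ => 2 * y.2 + 6 + y.1) := Primrec.nat_add.comp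
    (Primrec.nat_add.comp (Primrec.nat_mul.comp (Primrec.const 2) Primrec.snd)
      (Primrec.const 6)) Primrec.fst
  have h := (Primrec.cond hc h2 h3).to_comp.comp (Computable.id.pair J6_computable)
  refine h.of_eq ?_
  intro x
  unfold tP
  by_cases h1 : x % 6 = 1 <;> by_cases h2 : 3 * (x / 6) + 1 = 7 * 4 ^ J (x / 6) <;>
    simp [h1, h2]

theorem tP_tendsto : Tendsto tP atTop atTop := by
  rw [tendsto_atTop]
  intro M
  filter_upwards [eventually_ge_atTop (42 * 4 ^ M)] with x hx
  unfold tP
  split_ifs with h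
  · have h1 : 42 * 4 ^ M < 42 * 4 ^ (J (x / 6) + 1) := by
      rw [pow_succ]
      omega
    have h2 : 4 ^ M < 4 ^ (J (x / 6) + 1) := by omega
    have h3 := (Nat.pow_lt_pow_iff_right (by omega)).1 h2
    omega
  · have : M < 4 ^ M := Nat.lt_pow_self (by omega)
    omega

/-! ### The flowchart for `fP` -/

/-- the flowchart for `fP` -/
def PP : Flowchart FB where
  Node := Fin 6
  fin := inferInstance
  start := 0
  instr := fun i => match i with
    | 0 => .op oA ![0] 0 1
    | 1 => .test oT ![0, 1] 2 3
    | 2 => .op oS ![1] 1 1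
    | 3 => .test oY ![0, 1] 4 5
    | 4 => .halt 0
    | 5 => .op oS ![0] 0 4

theorem PP_outIn : PP.OutIn {0} := by
  have key : ∀ (n : Fin 6) (o : ℕ), PP.instr n = .halt o → o = 0 := by
    intro n o h
    fin_cases n <;> simp [PP] at h
    exact h.symm
  exact fun n o h => key n o h

theorem PP0 (k : ℕ) (s : ℕ → ℕ) : PP.outAt (k + 1) (0 : Fin 6) s =
    PP.outAt k (1 : Fin 6) (Function.update s 0 (fA (s 0))) := rfl
theorem PP1 (k : ℕ) (s : ℕ → ℕ) : PP.outAt (k + 1) (1 : Fin 6) s =
    bif tQ false (s 0) (s 1) then PP.outAt k (2 : Fin 6) s else PP.outAt k (3 : Fin 6) s := by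
  have h : PP.instr (1 : Fin 6) = .test oT ![0, 1] (2 : Fin 6) (3 : Fin 6) := rfl
  rw [outAt_test h]
  have h2 : oT.1.2 (fun i => s ((![0, 1] : Fin 2 → ℕ) i)) = tQ false (s 0) (s 1) := rfl
  rw [h2]
  cases tQ false (s 0) (s 1) <;> rfl
theorem PP2 (k : ℕ) (s : ℕ → ℕ) : PP.outAt (k + 1) (2 : Fin 6) s =
    PP.outAt k (1 : Fin 6) (Function.update s 1 (fS (s 1))) := rfl
theorem PP3 (k : ℕ) (s : ℕ → ℕ) : PP.outAt (k + 1) (3 : Fin 6) s =
    bif tQ true (s 0) (s 1) then PP.outAt k (4 : Fin 6) s else PP.outAt k (5 : Fin 6) s := by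
  have h : PP.instr (3 : Fin 6) = .test oY ![0, 1] (4 : Fin 6) (5 : Fin 6) := rfl
  rw [outAt_test h]
  have h2 : oY.1.2 (fun i => s ((![0, 1] : Fin 2 → ℕ) i)) = tQ true (s 0) (s 1) := rfl
  rw [h2]
  cases tQ true (s 0) (s 1) <;> rfl
theorem PP4 (s : ℕ → ℕ) : PP.outAt 1 (4 : Fin 6) s = some (s 0) := rfl
theorem PP5 (k : ℕ) (s : ℕ → ℕ) : PP.outAt (k + 1) (5 : Fin 6) s =
    PP.outAt k (4 : Fin 6) (Function.update s 0 (fS (s 0))) := rfl

theorem tQ_eq (q : Bool) (n j : ℕ) : tQ q (3 * n + 2) (3 * j) = n.testBit (2 * j + q.toNat) := by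
  unfold tQ
  have e1 : (3 * n + 2) % 3 = 2 := by omega
  have e2 : (3 * j) % 3 = 0 := by omega
  have e3 : (3 * n + 2) / 3 = n := by omega
  have e4 : (3 * j) / 3 = j := by omega
  rw [e1, e2, e3, e4]
  simp

theorem PP_loop (n : ℕ) (k : ℕ) : ∀ (d j : ℕ) (s : ℕ → ℕ), j + d = J n → s 0 = 3 * n + 2 →
    s 1 = 3 * j → ∃ s', s' 0 = 3 * n + 2 ∧ s' 1 = 3 * J n ∧
      PP.outAt (2 * d + k) (1 : Fin 6) s = PP.outAt k (1 : Fin 6) s' := by
  intro d
  induction d with
  | zero =>
    intro j s hj h0 h1
    exact ⟨s, h0, by rw [h1, ← hj, Nat.add_zero], by rw [Nat.mul_zero, Nat.zero_add]⟩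
  | succ d ih =>
    intro j s hj h0 h1
    have hT : tQ false (s 0) (s 1) = true := by
      rw [h0, h1, tQ_eq]
      exact J_min (by omega)
    have e : 2 * (d + 1) + k = (2 * d + k) + 1 + 1 := by omega
    rw [e, PP1, hT, cond_true, PP2]
    refine ih (j + 1) _ (by omega) ?_ ?_
    · rw [Function.update_of_ne (by omega)]
      exact h0
    · rw [Function.update_self, h1]
      unfold fS
      rw [if_pos (by omega)]
      omega

theorem PP_run (x : ℕ) : ∃ k, PP.Halts x k (fP x) ∧ k ≤ tP x := by
  by_cases hx : x % 3 = 1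
  · have hA : fA x = 3 * (x / 6) + 2 := by
      unfold fA
      rw [if_pos hx]
    have e0 : init x 0 = x := rfl
    cases hY : (x / 6).testBit (2 * J (x / 6) + 1) with
    | true =>
      refine ⟨2 * J (x / 6) + 5, ⟨2 * J (x / 6) + 3 + 1, rfl, ?_⟩, ?_⟩
      · obtain ⟨s', h0, h1, h2⟩ := PP_loop (x / 6) 3 (J (x / 6)) 0
          (Function.update (init x) 0 (fA (init x 0))) (by omega)
          (by rw [Function.update_self, e0, hA]) (by simp [init])
        refine Eq.trans (PP0 _ _) (Eq.trans h2 ?_)
        have hT : tQ false (s' 0) (s' 1) = false := by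
          rw [h0, h1, tQ_eq]
          exact J_spec _
        have hY' : tQ true (s' 0) (s' 1) = true := by
          rw [h0, h1, tQ_eq]
          exact hY
        rw [PP1, hT, cond_false, PP3, hY', cond_true, PP4, h0]
        unfold fP
        rw [if_pos hx, hY, if_pos rfl]
      · unfold tP
        split_ifs <;> omega
    | false =>
      refine ⟨2 * J (x / 6) + 6, ⟨2 * J (x / 6) + 4 + 1, rfl, ?_⟩, ?_⟩
      · obtain ⟨s', h0, h1, h2⟩ := PP_loop (x / 6) 4 (J (x / 6)) 0
          (Function.update (init x) 0 (fA (init x 0))) (by omega)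
          (by rw [Function.update_self, e0, hA]) (by simp [init])
        refine Eq.trans (PP0 _ _) (Eq.trans h2 ?_)
        have hT : tQ false (s' 0) (s' 1) = false := by
          rw [h0, h1, tQ_eq]
          exact J_spec _
        have hY' : tQ true (s' 0) (s' 1) = false := by
          rw [h0, h1, tQ_eq]
          exact hY
        rw [PP1, hT, cond_false, PP3, hY', cond_false, PP5, PP4, Function.update_self, h0]
        unfold fP fS
        rw [if_pos hx, hY]
        rw [if_neg (by omega)]
        simp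
      · unfold tP
        split_ifs with h
        · exfalso
          have h1 := tn_eq (J (x / 6))
          have h2 : x / 6 = tn (J (x / 6)) := by omega
          have h3 := tn_odd (J (x / 6)) (J (x / 6))
          rw [← h2, hY] at h3
          simp at h3
        · omega
  · refine ⟨6, ⟨5, rfl, ?_⟩, ?_⟩
    · have hA : fA x = 0 := by
        unfold fA
        rw [if_neg hx]
      have e0 : init x 0 = x := rfl
      refine Eq.trans (PP0 _ _) ?_
      have key : ∀ q w, tQ q 0 w = false := by
        intro q w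
        simp [tQ]
      rw [PP1, Function.update_self, e0, hA, key, cond_false, PP3, Function.update_self, key,
        cond_false, PP5, PP4, Function.update_self, Function.update_self]
      unfold fP fS
      rw [if_neg hx]
      rfl
    · unfold tP
      rw [if_neg (by omega)]
      omega

/-! ### The lower bound -/

/-- the changed tables -/
def ch (k : ℕ) (τ : Bool × ℕ) : ℕ := tn k ^^^ 2 ^ (2 * τ.2 + τ.1.toNat)

theorem ch_bit (k : ℕ) (τ : Bool × ℕ) (i : ℕ) : (ch k τ).testBit i =
    Bool.xor ((tn k).testBit i) (decide (2 * τ.2 + τ.1.toNat = i)) := by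
  unfold ch
  rw [Nat.testBit_xor, Nat.testBit_two_pow]

/-- the needed informative tests -/
def needed (k : ℕ) : Finset (Bool × ℕ) :=
  insert (true, k) ((Finset.range (k + 1)).image (fun j => (false, j)))

theorem needed_card (k : ℕ) : (needed k).card = k + 2 := by
  unfold needed
  rw [Finset.card_insert_of_notMem, Finset.card_image_of_injective, Finset.card_range]
  · intro a b h
    simpa using h
  · simp

theorem fP_ch {k : ℕ} {τ : Bool × ℕ} (hτ : τ ∈ needed k) : fP (6 * ch k τ + 1) = 0 := by
  have h6 : (6 * ch k τ + 1) / 6 = ch k τ := by omega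
  unfold fP
  rw [if_pos (by omega), h6]
  rw [if_neg]
  unfold needed at hτ
  simp only [Finset.mem_insert, Finset.mem_image, Finset.mem_range] at hτ
  rcases hτ with rfl | ⟨j, hj, rfl⟩
  · have hJ : J (ch k (true, k)) = k := by
      apply J_eq
      · intro j hj
        rw [ch_bit, tn_even]
        have : ¬ (2 * k + 1 = 2 * j) := by omega
        simp [hj, this]
      · rw [ch_bit, tn_even]
        simp
    rw [hJ, ch_bit, tn_odd]
    simp
  · by_cases hjk : j = k
    · subst hjk
      have hJ : J (ch j (false, j)) = j + 1 := by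
        apply J_eq
        · intro i hi
          rw [ch_bit, tn_even]
          by_cases hij : i = j
          · subst hij
            simp
          · have h1 : i < j := by omega
            have h2 : ¬ (2 * j = 2 * i) := by omega
            simp [h1]
            omega
        · rw [ch_bit, tn_even]
          simp
      rw [hJ, ch_bit, tn_odd]
      simp
      omega
    · have hjk' : j < k := by omega
      have hJ : J (ch k (false, j)) = j := by
        apply J_eq
        · intro i hi
          rw [ch_bit, tn_even]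
          have h1 : i < k := by omega
          have h2 : ¬ (2 * j = 2 * i) := by omega
          simp [h1]
          omega
        · rw [ch_bit, tn_even]
          simp [hjk']
      rw [hJ, ch_bit, tn_odd]
      simp [hjk]

theorem ch_large {k : ℕ} (hk : 4 ≤ k) {τ : Bool × ℕ} (hτ : τ ∈ needed k) :
    2 * k + 4 < ch k τ := by
  have hpow : 2 * k + 4 < 2 ^ (2 * k - 2) := by
    obtain ⟨m, rfl⟩ : ∃ m, k = m + 4 := ⟨k - 4, by omega⟩
    have h1 : 2 * (m + 4) - 2 = (2 * m + 2) + 4 := by omega
    rw [h1, pow_add]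
    have := @Nat.lt_two_pow_self (2 * m + 2)
    omega
  unfold needed at hτ
  simp only [Finset.mem_insert, Finset.mem_image, Finset.mem_range] at hτ
  rcases hτ with rfl | ⟨j, hj, rfl⟩
  · have h1 : (ch k (true, k)).testBit (2 * (k - 1)) = true := by
      rw [ch_bit, tn_even]
      have h2 : ¬ (2 * k + 1 = 2 * (k - 1)) := by omega
      have h3 : k - 1 < k := by omega
      simp [h2, h3]
    have h2 := Nat.ge_two_pow_of_testBit h1
    have h3 : 2 * (k - 1) = 2 * k - 2 := by omega
    rw [h3] at h2
    omega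
  · have h1 : (ch k (false, j)).testBit (2 * k + 1) = true := by
      rw [ch_bit, tn_odd]
      have h2 : ¬ (2 * j = 2 * k + 1) := by omega
      simp [h2]
    have h2 := Nat.ge_two_pow_of_testBit h1
    have h3 : 2 ^ (2 * k - 2) ≤ 2 ^ (2 * k + 1) := Nat.pow_le_pow_right (by omega) (by omega)
    omega

theorem tn_large {k : ℕ} (hk : 4 ≤ k) : 2 * k + 4 < tn k := by
  have h1 : (tn k).testBit (2 * k + 1) = true := by
    rw [tn_odd]
    simp
  have h2 := Nat.ge_two_pow_of_testBit h1
  have h3 := @Nat.lt_two_pow_self (2 * k)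
  rw [pow_succ] at h2
  omega

theorem J_tn (k : ℕ) : J (tn k) = k := by
  apply J_eq
  · intro j hj
    rw [tn_even]
    simp [hj]
  · rw [tn_even]
    simp

theorem fP_tn (k : ℕ) : fP (6 * tn k + 1) = 3 * tn k + 2 := by
  have h6 : (6 * tn k + 1) / 6 = tn k := by omega
  unfold fP
  rw [if_pos (by omega), h6, J_tn, tn_odd]
  simp

theorem tP_tn (k : ℕ) : tP (6 * tn k + 1) = 2 * k + 5 := by
  have h6 : (6 * tn k + 1) / 6 = tn k := by omega
  unfold tP
  rw [h6, J_tn, if_pos]
  exact ⟨by omega, tn_eq k⟩

/-- A flowchart over `FB` with output in the input variable, which computes a finite variation `g`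
of `fP` in time `tP`, cannot distinguish `6 n + 1` from `6 n + 4`. -/
theorem lower (G : Flowchart FB) (hO : G.OutIn {0}) (g : ℕ → ℕ)
    (hG : ∀ x, ∃ k, G.Halts x k (g x)) (hg : ∀ᶠ x in atTop, fP x = g x)
    (ht : ∀ᶠ x in atTop, ∃ k ≤ tP x, G.Halts x k (g x)) (x₁ x₂ : ℕ) (h₁ : x₁ % 3 = 1)
    (h₂ : x₂ % 3 = 1) (h₁₂ : x₁ / 6 = x₂ / 6) : g x₁ = g x₂ := by
  choose ci hci hhalt using fun n => exists_ci (G.instr n)
  have hrun := outAt_eq_cOut G ci hci
  have hO' : ∀ n o, ci n = .halt o → o = 0 := fun n o h => hO n o (hhalt n o h)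
  obtain ⟨M₁, hM₁⟩ := eventually_atTop.1 hg
  obtain ⟨M₂, hM₂⟩ := eventually_atTop.1 ht
  set k := max 4 (max M₁ M₂) with hk
  have hk4 : 4 ≤ k := le_max_left _ _
  have hkM₁ : M₁ ≤ k := (le_max_left _ _).trans (le_max_right _ _)
  have hkM₂ : M₂ ≤ k := (le_max_right _ _).trans (le_max_right _ _)
  have hlarge := tn_large hk4
  set n := tn k with hn
  set x := 6 * n + 1 with hx
  set b := 3 * n + 2 with hb
  have hx3 : x % 3 = 1 := by omega
  have hbx : b = 3 * (x / 6) + 2 := by omega
  have hgx : g x = b := by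
    rw [← hM₁ x (by omega)]
    exact fP_tn k
  obtain ⟨c, hc, r, hcr, hr⟩ := hM₂ x (by omega)
  rw [hgx, hrun] at hr
  have hr1 : r ≤ 2 * k + 4 := by
    have h5 : tP x = 2 * k + 5 := tP_tn k
    omega
  -- the needed tests are executed
  have hneed : needed k ⊆ cT ci b r G.start (init x) := by
    intro τ hτ
    by_contra hcon
    have hl := ch_large hk4 hτ
    obtain ⟨v', hv', hvb⟩ := adv (x := x) (b := b) (x' := 6 * ch k τ + 1) (b' := 3 * ch k τ + 2)
      hx3 hbx (by omega) (by omega) ci τ (by
        intro i hi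
        have e1 : b / 3 = tn k := by omega
        have e2 : (3 * ch k τ + 2) / 3 = ch k τ := by omega
        rw [e1, e2, ch_bit]
        have : ¬ (2 * τ.2 + τ.1.toNat = i) := fun h => hi h.symm
        simp [this]) r G.start (init x) (init (6 * ch k τ + 1)) 0 b (by omega) (by omega) (by
        intro u
        unfold init
        by_cases hu : u = 0
        · left
          simp [hu]
        · right; right
          simp [hu]) hcon hr
    have hv'' := hvb rfl
    subst hv''
    rw [← hrun] at hv'
    obtain ⟨k₂, hk₂⟩ := hG (6 * ch k τ + 1)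
    have h3 := (halts_unique hk₂ ⟨r, rfl, hv'⟩).2
    rw [← hM₁ _ (by omega), fP_ch hτ] at h3
    omega
  have hcard : k + 2 ≤ (cT ci b r G.start (init x)).card := by
    rw [← needed_card k]
    exact Finset.card_le_card hneed
  have hS : k ≤ nS ci r G.start (init x) := by
    have h1 : ((true, k) : Bool × ℕ) ∈ cT ci b r G.start (init x) := hneed (by simp [needed])
    have h2 := idx_le hx3 hbx ci r G.start (init x) 0 (by omega) (by
      intro u
      unfold init
      by_cases hu : u = 0
      · left; simp [hu]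
      · right; right; simp [hu]) _ h1
    simpa using h2
  have hA : 1 ≤ nA ci r G.start (init x) := by
    by_contra hcon
    have h1 := no_A hx3 hbx ci hO' r G.start (init x) 0 (by omega) (by
      intro u
      unfold init
      by_cases hu : u = 0
      · left; simp [hu]
      · right; right; simp [hu]) hr (by omega)
    have : init x 0 = x := rfl
    omega
  have hcount := count_le ci b r G.start (init x) b hr
  have hforget := forget hx3 hbx ci hO' x₁ x₂ h₁ h₂ h₁₂ r G.start (init x) 0 (by omega) rfl (by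
      intro u hu
      simp [init, hu]) hr (by omega) (by omega)
  have hinit : ∀ y, Function.update (init x) 0 y = init y := by
    intro y
    funext i
    by_cases hi : i = 0
    · subst hi
      simp [init]
    · simp [Function.update, init, hi]
  obtain ⟨_, k₁, rfl, hk₁⟩ := hG x₁
  obtain ⟨_, k₂, rfl, hk₂⟩ := hG x₂
  have h3 := hforget k₁
  rw [hinit, hinit, ← hrun, ← hrun, hk₁] at h3
  exact (outAt_unique G _ _ _ _ _ _ h3.symm hk₂).2

theorem fixed_not_inv : ∃ f g t : ℕ → ℕ, Computable f ∧ Computable g ∧ Computable t ∧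
    Tendsto t atTop atTop ∧ (∀ x, x ≠ 1 → f x = g x) ∧ f ∈ Cls {0} FB t ∧ g ∉ Cls {0} FB t := by
  refine ⟨fP, fun x => if x = 1 then 1 else fP x, tP, fP_computable, ?_, tP_computable,
    tP_tendsto, fun x hx => by simp [hx], ?_, ?_⟩
  · have hc : Computable (fun x : ℕ => decide (x = 1)) :=
      ((PrimrecRel.comp Primrec.eq Primrec.id (Primrec.const 1) :
        PrimrecPred (fun x : ℕ => x = 1)).decide).to_comp
    refine (Computable.cond hc (Computable.const 1) fP_computable).of_eq ?_
    intro x
    by_cases hx : x = 1 <;> simp [hx]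
  · refine ⟨PP, PP_outIn, fun x => ?_, Eventually.of_forall fun x => ?_⟩
    · obtain ⟨k, hk, -⟩ := PP_run x
      exact ⟨k, hk⟩
    · obtain ⟨k, hk, hk'⟩ := PP_run x
      exact ⟨k, hk', hk⟩
  · rintro ⟨G, hO, hG, ht⟩
    have h := lower G hO (fun x => if x = 1 then 1 else fP x) hG (by
      filter_upwards [eventually_gt_atTop 1] with x hx
      rw [if_neg (by omega)]) ht 1 4 (by norm_num) (by norm_num) (by norm_num)
    have hJ : J 0 = 0 := J_eq (by omega) (by simp)
    have h4 : fP 4 = 0 := by
      unfold fP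
      norm_num
    simp [h4] at h

end Pool.Agent.H269.Flow
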