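import Mathlib
import Pool.Agent.H269.Flow.Fixed

/-!
# A finite interpretation, universal for a separate output variable, without the value `0`
-/

namespace Pool.Agent.H269.Flow.Sep

open Filter Nat.Partrec Pool.Agent.H269.Flow

/-- successor on the multiples of three -/
def gS (z : ℕ) : ℕ := if z % 3 = 0 then z + 3 else 2

/-- `6 n + 1` and `6 n + 4` are sent to `3 n + 2`, all other numbers to `2` -/
def gA (z : ℕ) : ℕ := if z % 3 = 1 then 3 * (z / 6) + 2 else 2

/-- the test `tH`, for `z = true` together with the test that the value is `0` -/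
def tZ (z : Bool) (p x j : ℕ) : Bool := tH p x j && (!z || decide ((ev p x j).getD 0 = 0))

/-- the value, and `2` if there is none or it is `0` -/
def gU (p x j : ℕ) : ℕ := bif tH p x j && !(tZ true p x j) then (ev p x j).getD 0 else 2

/-- The interpretation: three functions, four predicates. -/
def FC : Interp where
  fns := {⟨1, fun v => gS (v 0)⟩, ⟨1, fun v => gA (v 0)⟩, ⟨3, fun v => gU (v 0) (v 1) (v 2)⟩}
  prs := {⟨2, fun v => tQ false (v 0) (v 1)⟩, ⟨2, fun v => tQ true (v 0) (v 1)⟩,
    ⟨3, fun v => tZ false (v 0) (v 1) (v 2)⟩, ⟨3, fun v => tZ true (v 0) (v 1) (v 2)⟩}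

theorem FC_finite : FC.IsFinite := by
  constructor <;> simp [FC]

theorem prim_gS : Primrec gS := by
  unfold gS
  exact Primrec.ite (Primrec.eq.comp (Primrec.nat_mod.comp Primrec.id (Primrec.const 3))
    (Primrec.const 0)) (Primrec.nat_add.comp Primrec.id (Primrec.const 3)) (Primrec.const 2)

theorem prim_gA : Primrec gA := by
  unfold gA
  exact Primrec.ite (Primrec.eq.comp (Primrec.nat_mod.comp Primrec.id (Primrec.const 3))
    (Primrec.const 1)) (Primrec.nat_add.comp (Primrec.nat_mul.comp (Primrec.const 3)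
      (Primrec.nat_div.comp Primrec.id (Primrec.const 6))) (Primrec.const 2)) (Primrec.const 2)

theorem prim_tZ (z : Bool) : Primrec (fun v : Fin 3 → ℕ => tZ z (v 0) (v 1) (v 2)) := by
  unfold tZ
  refine Primrec.and.comp prim_tH (Primrec.or.comp (Primrec.const _) ?_)
  exact (Primrec.eq.comp (Primrec.option_getD.comp prim_ev (Primrec.const 0))
      (Primrec.const 0) : PrimrecPred _).decide

theorem prim_gU : Primrec (fun v : Fin 3 → ℕ => gU (v 0) (v 1) (v 2)) := by
  unfold gU
  exact Primrec.cond (Primrec.and.comp prim_tH (Primrec.not.comp (prim_tZ true)))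
    (Primrec.option_getD.comp prim_ev (Primrec.const 0)) (Primrec.const 2)

theorem FC_recursive : FC.Recursive := by
  constructor
  · rintro f (rfl | rfl | rfl)
    · exact (prim_gS.comp (prim_app 1 0)).to_comp
    · exact (prim_gA.comp (prim_app 1 0)).to_comp
    · exact prim_gU.to_comp
  · rintro p (rfl | rfl | rfl | rfl)
    · exact (prim_tQ false).to_comp
    · exact (prim_tQ true).to_comp
    · exact (prim_tZ false).to_comp
    · exact (prim_tZ true).to_comp

/-- the three functions and four predicates as symbols -/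
def oS : FC.fns := ⟨⟨1, fun v => gS (v 0)⟩, by simp [FC]⟩
def oA : FC.fns := ⟨⟨1, fun v => gA (v 0)⟩, by simp [FC]⟩
def oU : FC.fns := ⟨⟨3, fun v => gU (v 0) (v 1) (v 2)⟩, by simp [FC]⟩
def oT : FC.prs := ⟨⟨2, fun v => tQ false (v 0) (v 1)⟩, by simp [FC]⟩
def oY : FC.prs := ⟨⟨2, fun v => tQ true (v 0) (v 1)⟩, by simp [FC]⟩
def oH : FC.prs := ⟨⟨3, fun v => tZ false (v 0) (v 1) (v 2)⟩, by simp [FC]⟩
def oZ : FC.prs := ⟨⟨3, fun v => tZ true (v 0) (v 1) (v 2)⟩, by simp [FC]⟩

/-- the universal flowchart with the program `p` built in -/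
def uni (p : ℕ) : Flowchart FC where
  Node := Fin (p + 1) ⊕ Fin 4
  fin := inferInstance
  start := .inl 0
  instr := fun q => match q with
    | .inl i => if h : i.val < p then .op oS (fun _ => 2) 2 (.inl ⟨i.val + 1, by omega⟩)
        else .op oS (fun _ => 3) 3 (.inr 0)
    | .inr ⟨0, _⟩ => .test oH ![2, 0, 3] (.inr 1) (.inl ⟨p, by omega⟩)
    | .inr ⟨1, _⟩ => .test oZ ![2, 0, 3] (.inr 3) (.inr 2)
    | .inr ⟨2, _⟩ => .op oU ![2, 0, 3] 1 (.inr 3)
    | .inr _ => .halt 1

theorem uni_outIn (p : ℕ) : (uni p).OutIn {1} := by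
  intro n o h
  rcases n with i | i
  · simp only [uni] at h
    split_ifs at h
  · fin_cases i <;> simp [uni] at h
    exact h.symm

theorem uni_left (p : ℕ) (i : ℕ) (hi : i < p) (k : ℕ) (s : ℕ → ℕ) :
    (uni p).outAt (k + 1) (Sum.inl ⟨i, by omega⟩) s =
      (uni p).outAt k (Sum.inl ⟨i + 1, by omega⟩) (Function.update s 2 (gS (s 2))) := by
  have h : (uni p).instr (Sum.inl ⟨i, by omega⟩) =
      .op oS (fun _ => 2) 2 (.inl ⟨i + 1, by omega⟩) := by
    simp [uni, hi]
  rw [outAt_op h]
  rfl

theorem uni_loop (p : ℕ) (k : ℕ) (s : ℕ → ℕ) :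
    (uni p).outAt (k + 1) (Sum.inl ⟨p, by omega⟩) s =
      (uni p).outAt k (Sum.inr 0) (Function.update s 3 (gS (s 3))) := by
  have h : (uni p).instr (Sum.inl ⟨p, by omega⟩) = .op oS (fun _ => 3) 3 (.inr 0) := by
    simp [uni]
  rw [outAt_op h]
  rfl

theorem tZ_false (p x j : ℕ) : tZ false p x j = tH p x j := by simp [tZ]

theorem uni_test (p : ℕ) (k : ℕ) (s : ℕ → ℕ) :
    (uni p).outAt (k + 1) (Sum.inr 0) s =
      bif tH (s 2) (s 0) (s 3) then (uni p).outAt k (Sum.inr 1) s
        else (uni p).outAt k (Sum.inl ⟨p, by omega⟩) s := by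
  have h : (uni p).instr (Sum.inr 0) = .test oH ![2, 0, 3] (.inr 1) (.inl ⟨p, by omega⟩) := rfl
  rw [outAt_test h]
  have h2 : oH.1.2 (fun i => s ((![2, 0, 3] : Fin 3 → ℕ) i)) = tH (s 2) (s 0) (s 3) :=
    tZ_false _ _ _
  rw [h2]
  cases tH (s 2) (s 0) (s 3) <;> rfl

theorem uni_zero (p : ℕ) (k : ℕ) (s : ℕ → ℕ) :
    (uni p).outAt (k + 1) (Sum.inr 1) s =
      bif tZ true (s 2) (s 0) (s 3) then (uni p).outAt k (Sum.inr 3) s
        else (uni p).outAt k (Sum.inr 2) s := by
  have h : (uni p).instr (Sum.inr 1) = .test oZ ![2, 0, 3] (.inr 3) (.inr 2) := rfl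
  rw [outAt_test h]
  have h2 : oZ.1.2 (fun i => s ((![2, 0, 3] : Fin 3 → ℕ) i)) = tZ true (s 2) (s 0) (s 3) := rfl
  rw [h2]
  cases tZ true (s 2) (s 0) (s 3) <;> rfl

theorem uni_U (p : ℕ) (k : ℕ) (s : ℕ → ℕ) :
    (uni p).outAt (k + 1) (Sum.inr 2) s =
      (uni p).outAt k (Sum.inr 3) (Function.update s 1 (gU (s 2) (s 0) (s 3))) := by
  have h : (uni p).instr (Sum.inr 2) = .op oU ![2, 0, 3] 1 (.inr 3) := rfl
  rw [outAt_op h]
  rfl

theorem uni_halt (p : ℕ) (k : ℕ) (s : ℕ → ℕ) :
    (uni p).outAt (k + 1) (Sum.inr 3) s = if k = 0 then some (s 1) else none := by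
  have h : (uni p).instr (Sum.inr 3) = .halt 1 := rfl
  rw [outAt_halt h]

/-- the value at the end of the loop -/
theorem value {c : Code} {x j : ℕ} (h : tH (3 * Encodable.encode c) x j = true) :
    (tZ true (3 * Encodable.encode c) x j = true ∧ 0 ∈ Code.eval c x) ∨
    (tZ true (3 * Encodable.encode c) x j = false ∧
      gU (3 * Encodable.encode c) x j ∈ Code.eval c x) := by
  obtain ⟨v, hv, -, -⟩ := fU_of_tH h
  have hv2 := hv
  unfold ev at hv
  rw [Nat.mul_div_cancel_left _ (by omega), Denumerable.ofNat_encode] at hv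
  have hs := Code.evaln_sound hv
  by_cases h0 : v = 0
  · left
    subst h0
    refine ⟨?_, hs⟩
    unfold tZ
    rw [h, hv2]
    simp
  · right
    have hz : tZ true (3 * Encodable.encode c) x j = false := by
      unfold tZ
      rw [h, hv2]
      simp [h0]
    refine ⟨hz, ?_⟩
    unfold gU
    rw [h, hz, hv2]
    exact hs

/-- the end of the run -/
theorem uni_end (c : Code) (x : ℕ) (s : ℕ → ℕ) (h0 : s 0 = x)
    (h1 : s 2 = 3 * Encodable.encode c) (hz : s 1 = 0)
    (h : tH (3 * Encodable.encode c) x (s 3) = true) :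
    (∃ k v, (uni (Encodable.encode c)).outAt k (Sum.inr 1) s = some v) ∧
    ∀ k v, (uni (Encodable.encode c)).outAt k (Sum.inr 1) s = some v → v ∈ Code.eval c x := by
  rcases value h with ⟨hz1, hv⟩ | ⟨hz1, hv⟩
  · constructor
    · refine ⟨2, 0, ?_⟩
      rw [uni_zero, h0, h1, hz1, cond_true, uni_halt]
      simp [hz]
    · intro k v hk
      match k, hk with
      | 0, hk => simp [Flowchart.outAt] at hk
      | 1, hk => rw [uni_zero, h0, h1, hz1, cond_true] at hk; simp [Flowchart.outAt] at hk
      | k + 2, hk =>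
        rw [uni_zero, h0, h1, hz1, cond_true, uni_halt] at hk
        by_cases hk0 : k = 0
        · simp only [hk0, if_true, Option.some.injEq] at hk
          rw [← hk, hz]
          exact hv
        · simp [hk0] at hk
  · constructor
    · refine ⟨3, gU (3 * Encodable.encode c) x (s 3), ?_⟩
      rw [uni_zero, h0, h1, hz1, cond_false, uni_U, uni_halt]
      simp [h0, h1]
    · intro k v hk
      match k, hk with
      | 0, hk => simp [Flowchart.outAt] at hk
      | 1, hk => rw [uni_zero, h0, h1, hz1, cond_false] at hk; simp [Flowchart.outAt] at hk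
      | 2, hk =>
        rw [uni_zero, h0, h1, hz1, cond_false, uni_U] at hk; simp [Flowchart.outAt] at hk
      | k + 3, hk =>
        rw [uni_zero, h0, h1, hz1, cond_false, uni_U, uni_halt] at hk
        by_cases hk0 : k = 0
        · simp only [hk0, if_true, Function.update_self, Option.some.injEq] at hk
          rw [← hk, h0, h1]
          exact hv
        · simp [hk0] at hk

theorem uni_sound (c : Code) (x v : ℕ) : ∀ (k : ℕ) (s : ℕ → ℕ), s 0 = x →
    s 2 = 3 * Encodable.encode c → s 1 = 0 →
    (uni (Encodable.encode c)).outAt k (Sum.inl ⟨Encodable.encode c, by omega⟩) s = some v →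
    v ∈ Code.eval c x := by
  intro k
  induction k using Nat.strong_induction_on with
  | _ k ih =>
    intro s h0 h1 hz h
    match k, ih, h with
    | 0, _, h => simp [Flowchart.outAt] at h
    | 1, _, h => rw [uni_loop] at h; simp [Flowchart.outAt] at h
    | k + 2, ih, h =>
      rw [uni_loop, uni_test] at h
      set s₂ := Function.update s 3 (gS (s 3)) with hs₂
      have e0 : s₂ 0 = x := by simp [hs₂, h0]
      have e1 : s₂ 2 = 3 * Encodable.encode c := by simp [hs₂, h1]
      have ez : s₂ 1 = 0 := by simp [hs₂, hz]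
      cases ht : tH (s₂ 2) (s₂ 0) (s₂ 3) with
      | true =>
        rw [ht, cond_true] at h
        rw [e0, e1] at ht
        exact (uni_end c x s₂ e0 e1 ez ht).2 k v h
      | false =>
        rw [ht, cond_false] at h
        exact ih k (by omega) s₂ e0 e1 ez h

theorem uni_complete (c : Code) (x : ℕ) : ∀ (m j : ℕ) (s : ℕ → ℕ), s 0 = x →
    s 2 = 3 * Encodable.encode c → s 1 = 0 → s 3 = 3 * j →
    tH (3 * Encodable.encode c) x (3 * (j + m + 1)) = true →
    ∃ k v, (uni (Encodable.encode c)).outAt k (Sum.inl ⟨Encodable.encode c, by omega⟩) s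
      = some v := by
  intro m
  induction m with
  | zero =>
    intro j s h0 h1 hz h2 ht
    have e2 : gS (s 3) = 3 * (j + 1) := by
      unfold gS
      rw [h2]
      simp
      omega
    have e1 : Function.update s 3 (3 * (j + 1)) 2 = 3 * Encodable.encode c := by simp [h1]
    have e0 : Function.update s 3 (3 * (j + 1)) 0 = x := by simp [h0]
    have ez : Function.update s 3 (3 * (j + 1)) 1 = 0 := by simp [hz]
    rw [Nat.add_zero] at ht
    obtain ⟨k, v, hk⟩ := (uni_end c x (Function.update s 3 (3 * (j + 1))) e0 e1 ez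
      (by rw [Function.update_self]; exact ht)).1
    refine ⟨k + 2, v, ?_⟩
    rw [uni_loop, uni_test]
    simp only [Function.update_self, e2]
    rw [e0, e1, ht, cond_true]
    exact hk
  | succ m ih =>
    intro j s h0 h1 hz h2 ht
    have e2 : gS (s 3) = 3 * (j + 1) := by
      unfold gS
      rw [h2]
      simp
      omega
    have e1 : Function.update s 3 (3 * (j + 1)) 2 = 3 * Encodable.encode c := by simp [h1]
    have e0 : Function.update s 3 (3 * (j + 1)) 0 = x := by simp [h0]
    have ez : Function.update s 3 (3 * (j + 1)) 1 = 0 := by simp [hz]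
    cases hc : tH (3 * Encodable.encode c) x (3 * (j + 1)) with
    | true =>
      obtain ⟨k, v, hk⟩ := (uni_end c x (Function.update s 3 (3 * (j + 1))) e0 e1 ez
        (by rw [Function.update_self]; exact hc)).1
      refine ⟨k + 2, v, ?_⟩
      rw [uni_loop, uni_test]
      simp only [Function.update_self, e2]
      rw [e0, e1, hc, cond_true]
      exact hk
    | false =>
      obtain ⟨k, v, hk⟩ := ih (j + 1) (Function.update s 3 (3 * (j + 1))) e0 e1 ez
        (by simp) (by rw [show j + 1 + m + 1 = j + (m + 1) + 1 by omega]; exact ht)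
      refine ⟨k + 2, v, ?_⟩
      rw [uni_loop, uni_test]
      simp only [Function.update_self, e2]
      rw [e0, e1, hc, cond_false]
      exact hk

/-- the prefix of the run: the numeral is built up -/
theorem uni_prefix (p : ℕ) (x : ℕ) (i : ℕ) (hi : i ≤ p) (k : ℕ) :
    (uni p).outAt (k + (p - i)) (Sum.inl ⟨i, by omega⟩) (Function.update (init x) 2 (3 * i)) =
      (uni p).outAt k (Sum.inl ⟨p, by omega⟩) (Function.update (init x) 2 (3 * p)) := by
  obtain ⟨d, hd⟩ : ∃ d, d = p - i := ⟨_, rfl⟩
  induction d generalizing i with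
  | zero =>
    have : i = p := by omega
    subst this
    simp
  | succ d ih =>
    have h1 : k + (p - i) = k + (p - (i + 1)) + 1 := by omega
    rw [h1, uni_left p i (by omega)]
    have h2 : Function.update (Function.update (init x) 2 (3 * i)) 2
        (gS (Function.update (init x) 2 (3 * i) 2)) = Function.update (init x) 2 (3 * (i + 1)) := by
      simp only [Function.update_self, Function.update_idem]
      congr 1
      unfold gS
      simp
      omega
    rw [h2]
    exact ih (i + 1) (by omega) (by omega)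

theorem uni_start (p x : ℕ) (k : ℕ) :
    (uni p).outAt (k + p) (uni p).start (init x) =
      (uni p).outAt k (Sum.inl ⟨p, by omega⟩) (Function.update (init x) 2 (3 * p)) := by
  have h := uni_prefix p x 0 (Nat.zero_le _) k
  rw [← h]
  have : Function.update (init x) 2 (3 * 0) = init x := by
    funext i
    by_cases hi : i = 2
    · subst hi; simp [init]
    · simp [Function.update, hi]
  rw [this, Nat.sub_zero]
  rfl

/-- short runs do not leave the prefix -/
theorem uni_short (p : ℕ) (i : ℕ) (hi : i ≤ p) (k : ℕ) (hk : k ≤ p - i) (s : ℕ → ℕ) (v : ℕ) :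
    (uni p).outAt k (Sum.inl ⟨i, by omega⟩) s ≠ some v := by
  induction k generalizing i s with
  | zero => simp [Flowchart.outAt]
  | succ k ih =>
    rw [uni_left p i (by omega)]
    exact ih (i + 1) (by omega) (by omega) _

theorem FC_universal : Universal {1} FC := by
  intro f hf
  obtain ⟨c, hc⟩ := Code.exists_code.1 hf
  subst hc
  refine ⟨uni (Encodable.encode c), uni_outIn _, ?_⟩
  intro x v
  have hs0 : Function.update (init x) 2 (3 * Encodable.encode c) 0 = x := by simp [init]
  have hs1 : Function.update (init x) 2 (3 * Encodable.encode c) 2 = 3 * Encodable.encode c := by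
    simp
  have hsz : Function.update (init x) 2 (3 * Encodable.encode c) 1 = 0 := by simp [init]
  have hs2 : Function.update (init x) 2 (3 * Encodable.encode c) 3 = 3 * 0 := by simp [init]
  constructor
  · intro hv
    obtain ⟨k₀, hk₀⟩ := Code.evaln_complete.1 hv
    have hk₁ : v ∈ Code.evaln (k₀ + v + 1) c x := Code.evaln_mono (by omega) hk₀
    have ht := tH_of_mem hk₁ (by omega)
    obtain ⟨k, v', hk⟩ := uni_complete c x (k₀ + v) 0 _ hs0 hs1 hsz hs2 (by
      rw [Nat.zero_add]; exact ht)
    have hv' := uni_sound c x v' k _ hs0 hs1 hsz hk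
    have : v' = v := Part.mem_unique hv' hv
    subst this
    refine ⟨k + Encodable.encode c + 1, k + Encodable.encode c, rfl, ?_⟩
    rw [uni_start]
    exact hk
  · rintro ⟨_, k, rfl, hk⟩
    by_cases hkp : k ≤ Encodable.encode c
    · exact absurd hk (uni_short _ 0 (Nat.zero_le _) k (by omega) _ v)
    · obtain ⟨k', rfl⟩ : ∃ k', k = k' + Encodable.encode c := ⟨k - Encodable.encode c, by omega⟩
      rw [uni_start] at hk
      exact uni_sound c x v k' _ hs0 hs1 hsz hk

end Pool.Agent.H269.Flow.Sep
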