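import Mathlib
import Pool.Agent.H269.Flow.Univ2

/-!
# Flowcharts over `FC` as concrete programs; counting executed nodes
-/

namespace Pool.Agent.H269.Flow.Sep

open Filter Nat.Partrec Pool.Agent.H269.Flow

/-- concrete instructions -/
inductive CI (N : Type)
  | opS (u d : ℕ) (n' : N)
  | opA (u d : ℕ) (n' : N)
  | opU (p x j d : ℕ) (n' : N)
  | tst (q : Bool) (u w : ℕ) (y z : N)
  | tstH (zz : Bool) (p x j : ℕ) (y z : N)
  | halt (o : ℕ)

variable {N : Type}

/-- one step of a labelled node -/
def istep {F : Interp} : Instr F N → (ℕ → ℕ) → (N × (ℕ → ℕ)) ⊕ ℕ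
  | .op f a d n', s => .inl (n', Function.update s d (f.1.2 fun i => s (a i)))
  | .test p a y z, s => .inl (bif p.1.2 (fun i => s (a i)) then y else z, s)
  | .halt o, s => .inr (s o)

/-- one step of a concrete instruction -/
def cstep : CI N → (ℕ → ℕ) → (N × (ℕ → ℕ)) ⊕ ℕ
  | .opS u d n', s => .inl (n', Function.update s d (gS (s u)))
  | .opA u d n', s => .inl (n', Function.update s d (gA (s u)))
  | .opU p x j d n', s => .inl (n', Function.update s d (gU (s p) (s x) (s j)))
  | .tst q u w y z, s => .inl (bif tQ q (s u) (s w) then y else z, s)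
  | .tstH zz p x j y z, s => .inl (bif tZ zz (s p) (s x) (s j) then y else z, s)
  | .halt o, s => .inr (s o)

theorem exists_ci (i : Instr FC N) :
    ∃ c : CI N, (∀ s, istep i s = cstep c s) ∧ ∀ o, c = .halt o → i = .halt o := by
  cases i with
  | op f a d n' =>
    obtain ⟨f, hf⟩ := f
    rcases hf with rfl | rfl | rfl
    · exact ⟨.opS (a 0) d n', fun s => rfl, fun o h => by cases h⟩
    · exact ⟨.opA (a 0) d n', fun s => rfl, fun o h => by cases h⟩
    · exact ⟨.opU (a 0) (a 1) (a 2) d n', fun s => rfl, fun o h => by cases h⟩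
  | test p a y z =>
    obtain ⟨p, hp⟩ := p
    rcases hp with rfl | rfl | rfl | rfl
    · exact ⟨.tst false (a 0) (a 1) y z, fun s => rfl, fun o h => by cases h⟩
    · exact ⟨.tst true (a 0) (a 1) y z, fun s => rfl, fun o h => by cases h⟩
    · exact ⟨.tstH false (a 0) (a 1) (a 2) y z, fun s => rfl, fun o h => by cases h⟩
    · exact ⟨.tstH true (a 0) (a 1) (a 2) y z, fun s => rfl, fun o h => by cases h⟩
  | halt o => exact ⟨.halt o, fun s => rfl, fun o' h => by cases h; rfl⟩

/-- exact runs of a concrete program -/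
def cOut (ci : N → CI N) : ℕ → N → (ℕ → ℕ) → Option ℕ
  | 0, _, _ => none
  | k + 1, n, s =>
    match ci n with
    | .opS u d n' => cOut ci k n' (Function.update s d (gS (s u)))
    | .opA u d n' => cOut ci k n' (Function.update s d (gA (s u)))
    | .opU p x j d n' => cOut ci k n' (Function.update s d (gU (s p) (s x) (s j)))
    | .tst q u w y z => cOut ci k (bif tQ q (s u) (s w) then y else z) s
    | .tstH zz p x j y z => cOut ci k (bif tZ zz (s p) (s x) (s j) then y else z) s
    | .halt o => if k = 0 then some (s o) else none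

theorem outAt_eq_cOut (G : Flowchart FC) (ci : G.Node → CI G.Node)
    (h : ∀ n s, istep (G.instr n) s = cstep (ci n) s) :
    ∀ (k : ℕ) (n : G.Node) (s : ℕ → ℕ), G.outAt k n s = cOut ci k n s := by
  intro k
  induction k with
  | zero => intro n s; rfl
  | succ k ih =>
    intro n s
    have hn := h n s
    have e1 : G.outAt (k + 1) n s = match istep (G.instr n) s with
        | .inl (n', s') => G.outAt k n' s'
        | .inr v => if k = 0 then some v else none := by
      cases hi : G.instr n with
      | halt o => rw [outAt_halt hi]; rfl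
      | op f a d n' => rw [outAt_op hi]; rfl
      | test p a y z => rw [outAt_test hi]; rfl
    rw [e1, hn]
    cases hc : ci n with
    | opS u d n' => simp only [cstep, cOut, hc]; exact ih _ _
    | opA u d n' => simp only [cstep, cOut, hc]; exact ih _ _
    | opU p x j d n' => simp only [cstep, cOut, hc]; exact ih _ _
    | tst q u w y z => simp only [cstep, cOut, hc]; exact ih _ _
    | tstH zz p x j y z => simp only [cstep, cOut, hc]; exact ih _ _
    | halt o => simp only [cstep, cOut, hc]

/-- the informative tests executed -/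
def cT (ci : N → CI N) (b : ℕ) : ℕ → N → (ℕ → ℕ) → Finset (Bool × ℕ)
  | 0, _, _ => ∅
  | k + 1, n, s =>
    match ci n with
    | .opS u d n' => cT ci b k n' (Function.update s d (gS (s u)))
    | .opA u d n' => cT ci b k n' (Function.update s d (gA (s u)))
    | .opU p x j d n' => cT ci b k n' (Function.update s d (gU (s p) (s x) (s j)))
    | .tst q u w y z => (if s u = b ∧ s w % 3 = 0 then {(q, s w / 3)} else ∅) ∪
        cT ci b k (bif tQ q (s u) (s w) then y else z) s
    | .tstH zz p x j y z => cT ci b k (bif tZ zz (s p) (s x) (s j) then y else z) s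
    | .halt _ => ∅

/-- the number of executions of `gS` -/
def nS (ci : N → CI N) : ℕ → N → (ℕ → ℕ) → ℕ
  | 0, _, _ => 0
  | k + 1, n, s =>
    match ci n with
    | .opS u d n' => 1 + nS ci k n' (Function.update s d (gS (s u)))
    | .opA u d n' => nS ci k n' (Function.update s d (gA (s u)))
    | .opU p x j d n' => nS ci k n' (Function.update s d (gU (s p) (s x) (s j)))
    | .tst q u w y z => nS ci k (bif tQ q (s u) (s w) then y else z) s
    | .tstH zz p x j y z => nS ci k (bif tZ zz (s p) (s x) (s j) then y else z) s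
    | .halt _ => 0

/-- the number of executions of `gA` -/
def nA (ci : N → CI N) : ℕ → N → (ℕ → ℕ) → ℕ
  | 0, _, _ => 0
  | k + 1, n, s =>
    match ci n with
    | .opS u d n' => nA ci k n' (Function.update s d (gS (s u)))
    | .opA u d n' => 1 + nA ci k n' (Function.update s d (gA (s u)))
    | .opU p x j d n' => nA ci k n' (Function.update s d (gU (s p) (s x) (s j)))
    | .tst q u w y z => nA ci k (bif tQ q (s u) (s w) then y else z) s
    | .tstH zz p x j y z => nA ci k (bif tZ zz (s p) (s x) (s j) then y else z) s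
    | .halt _ => 0

theorem count_le (ci : N → CI N) (b : ℕ) : ∀ (k : ℕ) (n : N) (s : ℕ → ℕ) (v : ℕ),
    cOut ci k n s = some v → 1 + nS ci k n s + nA ci k n s + (cT ci b k n s).card ≤ k := by
  intro k
  induction k with
  | zero => intro n s v h; simp [cOut] at h
  | succ k ih =>
    intro n s v h
    cases hc : ci n with
    | opS u d n' =>
      simp only [cOut, nS, nA, cT, hc] at h ⊢
      have := ih _ _ _ h
      omega
    | opA u d n' =>
      simp only [cOut, nS, nA, cT, hc] at h ⊢
      have := ih _ _ _ h
      omega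
    | opU p x j d n' =>
      simp only [cOut, nS, nA, cT, hc] at h ⊢
      have := ih _ _ _ h
      omega
    | tst q u w y z =>
      simp only [cOut, nS, nA, cT, hc] at h ⊢
      have := ih _ _ _ h
      have h2 : ((if s u = b ∧ s w % 3 = 0 then {(q, s w / 3)} else ∅ : Finset (Bool × ℕ)) ∪
          cT ci b k (bif tQ q (s u) (s w) then y else z) s).card ≤
          1 + (cT ci b k (bif tQ q (s u) (s w) then y else z) s).card := by
        refine (Finset.card_union_le _ _).trans ?_
        have : (if s u = b ∧ s w % 3 = 0 then {(q, s w / 3)} else ∅ : Finset (Bool × ℕ)).card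
            ≤ 1 := by
          split_ifs <;> simp
        omega
      omega
    | tstH zz p x j y z =>
      simp only [cOut, nS, nA, cT, hc] at h ⊢
      have := ih _ _ _ h
      omega
    | halt o =>
      simp only [nS, nA, cT, hc, Finset.card_empty]
      omega

/-! ### Values -/

theorem gU_le {p x j : ℕ} : gU p x j ≤ j ∨ gU p x j = 2 := by
  unfold gU
  cases h : tH p x j && !(tZ true p x j) with
  | true =>
    left
    simp only [Bool.and_eq_true] at h
    have h1 := h.1
    simp only [tH, Bool.and_eq_true, decide_eq_true_eq] at h1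
    simpa using h1.2
  | false => right; rfl

theorem gU_pos (p x j : ℕ) : gU p x j ≠ 0 := by
  unfold gU
  cases h : tH p x j && !(tZ true p x j) with
  | true =>
    simp only [Bool.and_eq_true, Bool.not_eq_true'] at h
    obtain ⟨h1, h2⟩ := h
    unfold tZ at h2
    rw [h1] at h2
    simpa using h2
  | false => simp

theorem gS_pos (z : ℕ) : gS z ≠ 0 := by
  unfold gS
  split_ifs <;> omega

theorem gA_pos (z : ℕ) : gA z ≠ 0 := by
  unfold gA
  split_ifs <;> omega

theorem gU_zero {p x j : ℕ} (h : tH p x j = false) : gU p x j = 2 := by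
  unfold gU
  simp [h]

theorem tZ_zero {z : Bool} {p x j : ℕ} (h : tH p x j = false) : tZ z p x j = false := by
  unfold tZ
  simp [h]

section

variable {x b x' b' c : ℕ} (hx : x % 3 = 1) (hb : b = 3 * (x / 6) + 2)
  (hx' : x' % 3 = 1) (hb' : b' = 3 * (x' / 6) + 2)

include hx hb hx' hb'

theorem rel_gS {v v' : ℕ} (h : Rel x b x' b' c v v') : Rel x b x' b' (c + 1) (gS v) (gS v') := by
  unfold gS
  rcases h with ⟨rfl, rfl⟩ | ⟨rfl, rfl⟩ | ⟨rfl, h⟩
  · right; right
    rw [if_neg (by omega), if_neg (by omega)]
    exact ⟨rfl, by omega⟩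
  · right; right
    rw [if_neg (by omega), if_neg (by omega)]
    exact ⟨rfl, by omega⟩
  · right; right
    refine ⟨rfl, ?_⟩
    split_ifs <;> omega

theorem rel_gA {v v' : ℕ} (h : Rel x b x' b' c v v') : Rel x b x' b' (c + 1) (gA v) (gA v') := by
  unfold gA
  rcases h with ⟨rfl, rfl⟩ | ⟨rfl, rfl⟩ | ⟨rfl, h⟩
  · right; left
    rw [if_pos hx, if_pos hx']
    exact ⟨hb.symm, hb'.symm⟩
  · right; right
    rw [if_neg (by omega), if_neg (by omega)]
    exact ⟨rfl, by omega⟩
  · right; right
    refine ⟨rfl, ?_⟩
    split_ifs <;> omega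

theorem rel_gU (hc : 3 * c + 2 < b) (hc' : 3 * c + 2 < b') {p p' y y' j j' : ℕ}
    (h1 : Rel x b x' b' c p p') (h2 : Rel x b x' b' c y y') (h3 : Rel x b x' b' c j j') :
    Rel x b x' b' (c + 1) (gU p y j) (gU p' y' j') := by
  right; right
  rcases rel_tH hx hb hx' hb' hc hc' h1 h2 h3 with ⟨rfl, rfl, rfl, h⟩ | ⟨h, h'⟩
  · refine ⟨rfl, ?_⟩
    have := @gU_le p y j
    omega
  · rw [gU_zero h, gU_zero h']
    exact ⟨rfl, by omega⟩

/-- if the informative test `τ` is not executed, the run on the changed input is parallel -/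
theorem adv (ci : N → CI N) (τ : Bool × ℕ)
    (hbits : ∀ i, i ≠ 2 * τ.2 + τ.1.toNat → (b / 3).testBit i = (b' / 3).testBit i) :
    ∀ (k : ℕ) (n : N) (s s' : ℕ → ℕ) (c v : ℕ), 3 * (c + k) + 2 < b → 3 * (c + k) + 2 < b' →
      (∀ u, Rel x b x' b' c (s u) (s' u)) → τ ∉ cT ci b k n s → cOut ci k n s = some v →
      ∃ v', cOut ci k n s' = some v' ∧ (v = b → v' = b') := by
  intro k
  induction k with
  | zero => intro n s s' c v _ _ _ _ h; simp [cOut] at h
  | succ k ih =>
    intro n s s' c v hc hc' hR hτ h
    have mono : ∀ u, Rel x b x' b' (c + 1) (s u) (s' u) := by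
      intro u
      rcases hR u with h | h | h
      · exact Or.inl h
      · exact Or.inr (Or.inl h)
      · exact Or.inr (Or.inr ⟨h.1, by omega⟩)
    have upd : ∀ (d w w' : ℕ), Rel x b x' b' (c + 1) w w' →
        ∀ u, Rel x b x' b' (c + 1) (Function.update s d w u) (Function.update s' d w' u) := by
      intro d w w' hw u
      by_cases hu : u = d
      · subst hu
        simpa using hw
      · rw [Function.update_of_ne hu, Function.update_of_ne hu]
        exact mono u
    cases hi : ci n with
    | opS u d n' =>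
      simp only [cOut, cT, hi] at h hτ ⊢
      exact ih _ _ _ (c + 1) v (by omega) (by omega)
        (upd d _ _ (rel_gS hx hb hx' hb' (hR u))) hτ h
    | opA u d n' =>
      simp only [cOut, cT, hi] at h hτ ⊢
      exact ih _ _ _ (c + 1) v (by omega) (by omega)
        (upd d _ _ (rel_gA hx hb hx' hb' (hR u))) hτ h
    | opU p y j d n' =>
      simp only [cOut, cT, hi] at h hτ ⊢
      exact ih _ _ _ (c + 1) v (by omega) (by omega)
        (upd d _ _ (rel_gU hx hb hx' hb' (by omega) (by omega) (hR p) (hR y) (hR j))) hτ h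
    | tst q u w y z =>
      simp only [cOut, cT, hi, Finset.mem_union, not_or] at h hτ ⊢
      have he : tQ q (s u) (s w) = tQ q (s' u) (s' w) := by
        refine rel_tQ hx hb hx' hb' τ hbits (hR u) (hR w) ?_
        intro h1 h2 h3
        apply hτ.1
        rw [if_pos ⟨h1, h2⟩, h3]
        exact Finset.mem_singleton_self _
      rw [← he]
      exact ih _ _ _ (c + 1) v (by omega) (by omega) mono hτ.2 h
    | tstH zz p y j y' z =>
      simp only [cOut, cT, hi] at h hτ ⊢
      have he : tZ zz (s p) (s y) (s j) = tZ zz (s' p) (s' y) (s' j) := by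
        rcases rel_tH hx hb hx' hb' (by omega) (by omega) (hR p) (hR y) (hR j) with
          ⟨h1, h2, h3, -⟩ | ⟨h1, h2⟩
        · rw [h1, h2, h3]
        · rw [tZ_zero h1, tZ_zero h2]
      rw [← he]
      exact ih _ _ _ (c + 1) v (by omega) (by omega) mono hτ h
    | halt o =>
      simp only [cOut, hi] at h ⊢
      by_cases hk : k = 0
      · simp only [hk, if_true, Option.some.injEq] at h ⊢
        refine ⟨s' o, rfl, ?_⟩
        intro hv
        rw [← h] at hv
        rcases hR o with ⟨h1, h2⟩ | ⟨h1, h2⟩ | ⟨h1, h2⟩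
        · omega
        · exact h2
        · omega
      · simp [hk] at h

end

end Pool.Agent.H269.Flow.Sep
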