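import Mathlib
import Pool.Agent.H269.Flow.Lower2

/-!
# The second counterexample: output in a separate fixed variable
-/

namespace Pool.Agent.H269.Flow.Sep

open Filter Nat.Partrec Pool.Agent.H269.Flow

/-- the function -/
def fQ (x : ℕ) : ℕ :=
  if x % 3 = 1 then (if (x / 6).testBit (2 * J (x / 6) + 1) then 3 * (x / 6) + 2 else 2) else 2

theorem fQ_computable : Computable fQ := by
  have h6 : Primrec (fun x : ℕ => x / 6) := Primrec.nat_div.comp Primrec.id (Primrec.const 6)
  have hb : Computable (fun x : ℕ => (x / 6).testBit (2 * J (x / 6) + 1)) := by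
    have h : Primrec (fun y : ℕ × ℕ => (y.1 / 6).testBit (2 * y.2 + 1)) :=
      prim_testBit (f := fun y : ℕ × ℕ => y.1 / 6) (g := fun y : ℕ × ℕ => 2 * y.2 + 1)
        (h6.comp Primrec.fst) (Primrec.nat_add.comp (Primrec.nat_mul.comp
        (Primrec.const 2) Primrec.snd) (Primrec.const 1))
    have h' := h.to_comp.comp (Computable.id.pair J6_computable)
    exact h'.of_eq (fun x => by simp only [id])
  have hc : Computable (fun x : ℕ => decide (x % 3 = 1)) :=
    ((Primrec.eq.comp (Primrec.nat_mod.comp Primrec.id (Primrec.const 3))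
      (Primrec.const 1) : PrimrecPred _).decide).to_comp
  have h := Computable.cond hc (Computable.cond hb
    (Primrec.nat_add.comp (Primrec.nat_mul.comp (Primrec.const 3) h6)
      (Primrec.const 2)).to_comp (Computable.const 2)) (Computable.const 2)
  refine h.of_eq ?_
  intro x
  unfold fQ
  by_cases h1 : x % 3 = 1
  · simp only [h1, decide_true, cond_true, if_true]
    cases (x / 6).testBit (2 * J (x / 6) + 1) <;> simp
  · simp [h1]

/-! ### The flowchart for `fQ` -/

/-- the flowchart for `fQ` -/
def PP : Flowchart FC where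
  Node := Fin 6
  fin := inferInstance
  start := 0
  instr := fun i => match i with
    | 0 => .op oA ![0] 1 1
    | 1 => .test oT ![1, 2] 2 3
    | 2 => .op oS ![2] 2 1
    | 3 => .test oY ![1, 2] 4 5
    | 4 => .halt 1
    | 5 => .op oS ![1] 1 4

theorem PP_outIn : PP.OutIn {1} := by
  have key : ∀ (n : Fin 6) (o : ℕ), PP.instr n = .halt o → o = 1 := by
    intro n o h
    fin_cases n <;> simp [PP] at h
    exact h.symm
  exact fun n o h => key n o h

theorem PP0 (k : ℕ) (s : ℕ → ℕ) : PP.outAt (k + 1) (0 : Fin 6) s =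
    PP.outAt k (1 : Fin 6) (Function.update s 1 (gA (s 0))) := rfl
theorem PP1 (k : ℕ) (s : ℕ → ℕ) : PP.outAt (k + 1) (1 : Fin 6) s =
    bif tQ false (s 1) (s 2) then PP.outAt k (2 : Fin 6) s else PP.outAt k (3 : Fin 6) s := by
  have h : PP.instr (1 : Fin 6) = .test oT ![1, 2] (2 : Fin 6) (3 : Fin 6) := rfl
  rw [outAt_test h]
  have h2 : oT.1.2 (fun i => s ((![1, 2] : Fin 2 → ℕ) i)) = tQ false (s 1) (s 2) := rfl
  rw [h2]
  cases tQ false (s 1) (s 2) <;> rfl
theorem PP2 (k : ℕ) (s : ℕ → ℕ) : PP.outAt (k + 1) (2 : Fin 6) s =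
    PP.outAt k (1 : Fin 6) (Function.update s 2 (gS (s 2))) := rfl
theorem PP3 (k : ℕ) (s : ℕ → ℕ) : PP.outAt (k + 1) (3 : Fin 6) s =
    bif tQ true (s 1) (s 2) then PP.outAt k (4 : Fin 6) s else PP.outAt k (5 : Fin 6) s := by
  have h : PP.instr (3 : Fin 6) = .test oY ![1, 2] (4 : Fin 6) (5 : Fin 6) := rfl
  rw [outAt_test h]
  have h2 : oY.1.2 (fun i => s ((![1, 2] : Fin 2 → ℕ) i)) = tQ true (s 1) (s 2) := rfl
  rw [h2]
  cases tQ true (s 1) (s 2) <;> rfl
theorem PP4 (s : ℕ → ℕ) : PP.outAt 1 (4 : Fin 6) s = some (s 1) := rfl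
theorem PP5 (k : ℕ) (s : ℕ → ℕ) : PP.outAt (k + 1) (5 : Fin 6) s =
    PP.outAt k (4 : Fin 6) (Function.update s 1 (gS (s 1))) := rfl

theorem PP_loop (n : ℕ) (k : ℕ) : ∀ (d j : ℕ) (s : ℕ → ℕ), j + d = J n → s 1 = 3 * n + 2 →
    s 2 = 3 * j → ∃ s', s' 1 = 3 * n + 2 ∧ s' 2 = 3 * J n ∧
      PP.outAt (2 * d + k) (1 : Fin 6) s = PP.outAt k (1 : Fin 6) s' := by
  intro d
  induction d with
  | zero =>
    intro j s hj h0 h1
    exact ⟨s, h0, by rw [h1, ← hj, Nat.add_zero], by rw [Nat.mul_zero, Nat.zero_add]⟩
  | succ d ih =>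
    intro j s hj h0 h1
    have hT : tQ false (s 1) (s 2) = true := by
      rw [h0, h1, tQ_eq]
      exact J_min (by omega)
    have e : 2 * (d + 1) + k = (2 * d + k) + 1 + 1 := by omega
    rw [e, PP1, hT, cond_true, PP2]
    refine ih (j + 1) _ (by omega) ?_ ?_
    · rw [Function.update_of_ne (by omega)]
      exact h0
    · rw [Function.update_self, h1]
      unfold gS
      rw [if_pos (by omega)]
      omega

theorem PP_run (x : ℕ) : ∃ k, PP.Halts x k (fQ x) ∧ k ≤ tP x := by
  by_cases hx : x % 3 = 1
  · have hA : gA x = 3 * (x / 6) + 2 := by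
      unfold gA
      rw [if_pos hx]
    have e0 : init x 0 = x := rfl
    cases hY : (x / 6).testBit (2 * J (x / 6) + 1) with
    | true =>
      refine ⟨2 * J (x / 6) + 5, ⟨2 * J (x / 6) + 3 + 1, rfl, ?_⟩, ?_⟩
      · obtain ⟨s', h0, h1, h2⟩ := PP_loop (x / 6) 3 (J (x / 6)) 0
          (Function.update (init x) 1 (gA (init x 0))) (by omega)
          (by rw [Function.update_self, e0, hA]) (by simp [init])
        refine Eq.trans (PP0 _ _) (Eq.trans h2 ?_)
        have hT : tQ false (s' 1) (s' 2) = false := by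
          rw [h0, h1, tQ_eq]
          exact J_spec _
        have hY' : tQ true (s' 1) (s' 2) = true := by
          rw [h0, h1, tQ_eq]
          exact hY
        rw [PP1, hT, cond_false, PP3, hY', cond_true, PP4, h0]
        unfold fQ
        rw [if_pos hx, hY, if_pos rfl]
      · unfold tP
        split_ifs <;> omega
    | false =>
      refine ⟨2 * J (x / 6) + 6, ⟨2 * J (x / 6) + 4 + 1, rfl, ?_⟩, ?_⟩
      · obtain ⟨s', h0, h1, h2⟩ := PP_loop (x / 6) 4 (J (x / 6)) 0
          (Function.update (init x) 1 (gA (init x 0))) (by omega)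
          (by rw [Function.update_self, e0, hA]) (by simp [init])
        refine Eq.trans (PP0 _ _) (Eq.trans h2 ?_)
        have hT : tQ false (s' 1) (s' 2) = false := by
          rw [h0, h1, tQ_eq]
          exact J_spec _
        have hY' : tQ true (s' 1) (s' 2) = false := by
          rw [h0, h1, tQ_eq]
          exact hY
        rw [PP1, hT, cond_false, PP3, hY', cond_false, PP5, PP4, Function.update_self, h0]
        unfold fQ gS
        rw [if_pos hx, hY]
        rw [if_neg (by omega)]
        simp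
      · unfold tP
        split_ifs with h
        · exfalso
          have h1 := tn_eq (J (x / 6))
          have h2 : x / 6 = tn (J (x / 6)) := by omega
          have h3 := tn_odd (J (x / 6)) (J (x / 6))
          rw [← h2, hY] at h3
          simp at h3
        · omega
  · refine ⟨6, ⟨5, rfl, ?_⟩, ?_⟩
    · have hA : gA x = 2 := by
        unfold gA
        rw [if_neg hx]
      have e0 : init x 0 = x := rfl
      have e2 : init x 2 = 0 := rfl
      refine Eq.trans (PP0 _ _) ?_
      have key : ∀ q w, tQ q 2 w = false := by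
        intro q w
        simp [tQ]
      rw [PP1, Function.update_self, e0, hA, key, cond_false, PP3, Function.update_self, key,
        cond_false, PP5, PP4, Function.update_self, Function.update_self]
      unfold fQ gS
      rw [if_neg hx]
      rfl
    · unfold tP
      rw [if_neg (by omega)]
      omega

theorem fQ_ch {k : ℕ} {τ : Bool × ℕ} (hτ : τ ∈ needed k) : fQ (6 * ch k τ + 1) = 2 := by
  have h := fP_ch hτ
  have h6 : (6 * ch k τ + 1) / 6 = ch k τ := by omega
  unfold fP at h
  unfold fQ
  rw [if_pos (by omega), h6] at h ⊢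
  split_ifs at h ⊢ with h1
  rfl

theorem fQ_tn (k : ℕ) : fQ (6 * tn k + 1) = 3 * tn k + 2 := by
  have h6 : (6 * tn k + 1) / 6 = tn k := by omega
  unfold fQ
  rw [if_pos (by omega), h6, J_tn, tn_odd]
  simp

/-- A flowchart over `FC` with output in the variable `1`, which computes a finite variation `g`
of `fQ` in time `tP`, has no output `0` on the inputs `6 n + 1` and `6 n + 4`. -/
theorem lower (G : Flowchart FC) (hO : G.OutIn {1}) (g : ℕ → ℕ)
    (hG : ∀ x, ∃ k, G.Halts x k (g x)) (hg : ∀ᶠ x in atTop, fQ x = g x)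
    (ht : ∀ᶠ x in atTop, ∃ k ≤ tP x, G.Halts x k (g x)) (x₁ : ℕ) (h₁ : x₁ % 3 = 1) :
    g x₁ ≠ 0 := by
  choose ci hci hhalt using fun n => exists_ci (G.instr n)
  have hrun := outAt_eq_cOut G ci hci
  have hO' : ∀ n o, ci n = .halt o → o = 1 := fun n o h => hO n o (hhalt n o h)
  obtain ⟨M₁, hM₁⟩ := eventually_atTop.1 hg
  obtain ⟨M₂, hM₂⟩ := eventually_atTop.1 ht
  set k := max 4 (max M₁ M₂) with hk
  have hk4 : 4 ≤ k := le_max_left _ _
  have hkM₁ : M₁ ≤ k := (le_max_left _ _).trans (le_max_right _ _)
  have hkM₂ : M₂ ≤ k := (le_max_right _ _).trans (le_max_right _ _)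
  have hlarge := tn_large hk4
  set n := tn k with hn
  set x := 6 * n + 1 with hx
  set b := 3 * n + 2 with hb
  have hx3 : x % 3 = 1 := by omega
  have hbx : b = 3 * (x / 6) + 2 := by omega
  have hgx : g x = b := by
    rw [← hM₁ x (by omega)]
    exact fQ_tn k
  obtain ⟨c, hc, r, hcr, hr⟩ := hM₂ x (by omega)
  rw [hgx, hrun] at hr
  have hr1 : r ≤ 2 * k + 4 := by
    have h5 : tP x = 2 * k + 5 := tP_tn k
    omega
  -- the needed tests are executed
  have hneed : needed k ⊆ cT ci b r G.start (init x) := by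
    intro τ hτ
    by_contra hcon
    have hl := ch_large hk4 hτ
    obtain ⟨v', hv', hvb⟩ := adv (x := x) (b := b) (x' := 6 * ch k τ + 1) (b' := 3 * ch k τ + 2)
      hx3 hbx (by omega) (by omega) ci τ (by
        intro i hi
        have e1 : b / 3 = tn k := by omega
        have e2 : (3 * ch k τ + 2) / 3 = ch k τ := by omega
        rw [e1, e2, ch_bit]
        have : ¬ (2 * τ.2 + τ.1.toNat = i) := fun h => hi h.symm
        simp [this]) r G.start (init x) (init (6 * ch k τ + 1)) 0 b (by omega) (by omega) (by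
        intro u
        unfold init
        by_cases hu : u = 0
        · left
          simp [hu]
        · right; right
          simp [hu]) hcon hr
    have hv'' := hvb rfl
    subst hv''
    rw [← hrun] at hv'
    obtain ⟨k₂, hk₂⟩ := hG (6 * ch k τ + 1)
    have h3 := (halts_unique hk₂ ⟨r, rfl, hv'⟩).2
    rw [← hM₁ _ (by omega), fQ_ch hτ] at h3
    omega
  have hcard : k + 2 ≤ (cT ci b r G.start (init x)).card := by
    rw [← needed_card k]
    exact Finset.card_le_card hneed
  have hS : k ≤ nS ci r G.start (init x) := by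
    have h1 : ((true, k) : Bool × ℕ) ∈ cT ci b r G.start (init x) := hneed (by simp [needed])
    have h2 := idx_le hx3 hbx ci r G.start (init x) 0 (by omega) (by
      intro u
      unfold init
      by_cases hu : u = 0
      · left; simp [hu]
      · right; right; simp [hu]) _ h1
    simpa using h2
  have hA : 1 ≤ nA ci r G.start (init x) := by
    by_contra hcon
    have h1 := no_A hx3 hbx ci hO' r G.start (init x) 0 (by omega) (by
      intro u
      unfold init
      by_cases hu : u = 0
      · left; simp [hu]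
      · right; right; simp [hu]) hr (by omega)
    have : init x 1 = 0 := rfl
    omega
  have hcount := count_le ci b r G.start (init x) b hr
  have hforget := forget hx3 hbx ci hO' x₁ h₁ r G.start (init x) 0 (by omega) rfl (by
      intro u hu
      simp [init, hu]) hr (by omega) (by omega)
  have hinit : ∀ y, Function.update (init x) 0 y = init y := by
    intro y
    funext i
    by_cases hi : i = 0
    · subst hi
      simp [init]
    · simp [Function.update, init, hi]
  obtain ⟨_, k₁, rfl, hk₁⟩ := hG x₁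
  have h3 := hforget k₁ (g x₁)
  rw [hinit, ← hrun] at h3
  exact h3 hk₁

theorem fixed_not_inv : ∃ f g t : ℕ → ℕ, Computable f ∧ Computable g ∧ Computable t ∧
    Tendsto t atTop atTop ∧ (∀ x, x ≠ 1 → f x = g x) ∧ f ∈ Cls {1} FC t ∧ g ∉ Cls {1} FC t := by
  refine ⟨fQ, fun x => if x = 1 then 0 else fQ x, tP, fQ_computable, ?_, tP_computable,
    tP_tendsto, fun x hx => by simp [hx], ?_, ?_⟩
  · have hc : Computable (fun x : ℕ => decide (x = 1)) :=
      ((PrimrecRel.comp Primrec.eq Primrec.id (Primrec.const 1) :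
        PrimrecPred (fun x : ℕ => x = 1)).decide).to_comp
    refine (Computable.cond hc (Computable.const 0) fQ_computable).of_eq ?_
    intro x
    by_cases hx : x = 1 <;> simp [hx]
  · refine ⟨PP, PP_outIn, fun x => ?_, Eventually.of_forall fun x => ?_⟩
    · obtain ⟨k, hk, -⟩ := PP_run x
      exact ⟨k, hk⟩
    · obtain ⟨k, hk, hk'⟩ := PP_run x
      exact ⟨k, hk', hk⟩
  · rintro ⟨G, hO, hG, ht⟩
    have h := lower G hO (fun x => if x = 1 then 0 else fQ x) hG (by
      filter_upwards [eventually_gt_atTop 1] with x hx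
      rw [if_neg (by omega)]) ht 1 (by norm_num)
    simp at h

end Pool.Agent.H269.Flow.Sep
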