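import Mathlib
import Pool.Agent.H269.Flow.Base

/-!
# Finite invariance for time bounds tending to infinity (halt nodes name their output variable)
-/

namespace Pool.Agent.H269.Flow

open Filter

variable {F : Interp}

/-- location of the variable `v`; `b` tells whether the variable `0` has been overwritten -/
def loc (ρ : ℕ → ℕ) (b : Bool) (v : ℕ) : ℕ := if v = 0 ∧ b = false then 0 else ρ v

/-- the store `s'` represents the store `s` and still has the input `x` in its variable `0` -/
def Rep (ρ : ℕ → ℕ) (x : ℕ) (b : Bool) (s s' : ℕ → ℕ) : Prop :=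
  s' 0 = x ∧ (b = false → s 0 = x) ∧ ∀ v, s' (loc ρ b v) = s v

theorem Rep.upd {ρ : ℕ → ℕ} (hinj : Function.Injective ρ) (hpos : ∀ v, ρ v ≠ 0) {x : ℕ} {b : Bool}
    {s s' : ℕ → ℕ} (h : Rep ρ x b s s') (d v : ℕ) :
    Rep ρ x (b || d == 0) (Function.update s d v) (Function.update s' (ρ d) v) := by
  obtain ⟨h0, h1, h2⟩ := h
  refine ⟨?_, ?_, ?_⟩
  · rw [Function.update_of_ne (hpos d).symm]
    exact h0
  · intro hb
    simp only [Bool.or_eq_false_iff, beq_eq_false_iff_ne, ne_eq] at hb
    rw [Function.update_of_ne (fun h => hb.2 h.symm)]
    exact h1 hb.1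
  · intro w
    by_cases hw : w = d
    · subst hw
      have : loc ρ (b || w == 0) w = ρ w := by
        unfold loc
        rw [if_neg]
        rintro ⟨hw0, hb⟩
        simp [hw0] at hb
      rw [this]
      simp
    · rw [Function.update_of_ne hw]
      have hl : loc ρ (b || d == 0) w = loc ρ b w := by
        unfold loc
        by_cases hw0 : w = 0
        · have hd : (d == 0) = false := by
            simp only [beq_eq_false_iff_ne, ne_eq]
            intro h
            exact hw (by rw [hw0, h])
          simp [hd]
        · simp [hw0]
      rw [hl]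
      have hne : loc ρ b w ≠ ρ d := by
        unfold loc
        split_ifs
        · exact (hpos d).symm
        · exact fun h => hw (hinj h)
      rw [Function.update_of_ne hne]
      exact h2 w

theorem Rep.args {ρ : ℕ → ℕ} {x : ℕ} {b : Bool} {s s' : ℕ → ℕ} (h : Rep ρ x b s s') {m : ℕ}
    (a : Fin m → ℕ) : (fun i => s' (loc ρ b (a i))) = fun i => s (a i) := by
  funext i
  exact h.2.2 (a i)

/-- locations of the variables of the first flowchart -/
def rp (v : ℕ) : ℕ := 2 * v + 1
/-- locations of the variables of the second flowchart -/
def rd (v : ℕ) : ℕ := 2 * v + 2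

theorem rp_inj : Function.Injective rp := fun a b h => by unfold rp at h; omega
theorem rd_inj : Function.Injective rd := fun a b h => by unfold rd at h; omega
theorem rp_pos (v : ℕ) : rp v ≠ 0 := by unfold rp; omega
theorem rd_pos (v : ℕ) : rd v ≠ 0 := by unfold rd; omega

theorem loc_rp_ne_rd (b : Bool) (v d : ℕ) : loc rp b v ≠ rd d := by
  unfold loc rp rd
  split_ifs <;> omega

/-- the output variable named at a node -/
def outVar (P : Flowchart F) (n : P.Node) : ℕ :=
  match P.instr n with
  | .halt o => o
  | _ => 0

/-- nodes of the combined flowchart -/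
abbrev QNode (P D : Flowchart F) (m m' : ℕ) : Type :=
  (P.Node × Bool × Fin (m + 1)) ⊕ ((P.Node × Bool) × D.Node × Bool × Fin (m' + 1))

/-- saturating successor -/
def nxt {m : ℕ} (i : Fin (m + 1)) : Fin (m + 1) := ⟨min (i.val + 1) m, by omega⟩

theorem nxt_val {m : ℕ} (i : Fin (m + 1)) : (nxt i).val = min (i.val + 1) m := rfl

/-- labels in the second phase -/
def insR (P D : Flowchart F) (m m' : ℕ) (c : P.Node × Bool) (n : D.Node) (b : Bool)
    (j : Fin (m' + 1)) : Instr F (QNode P D m m') :=
  if j.val = m' then .halt (loc rp c.2 (outVar P c.1))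
  else
    match D.instr n with
    | .halt o => .halt (loc rd b o)
    | .op f a d n' => .op f (fun i => loc rd b (a i)) (rd d) (.inr (c, n', b || d == 0, nxt j))
    | .test p a y z => .test p (fun i => loc rd b (a i)) (.inr (c, y, b, nxt j))
        (.inr (c, z, b, nxt j))

/-- labels in the first phase -/
def insL (P D : Flowchart F) (m m' : ℕ) (n : P.Node) (b : Bool)
    (i : Fin (m + 1)) : Instr F (QNode P D m m') :=
  match P.instr n with
  | .halt o => if i.val + 1 = m then insR P D m m' (n, b) D.start false 0
      else .halt (loc rp b o)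
  | .op f a d n' => .op f (fun i => loc rp b (a i)) (rp d) (.inl (n', b || d == 0, nxt i))
  | .test p a y z => .test p (fun i => loc rp b (a i)) (.inl (y, b, nxt i)) (.inl (z, b, nxt i))

/-- the combined flowchart: run `P`; if it stops after exactly `m` steps, run `D` for `m'` steps -/
def comb (P D : Flowchart F) (m m' : ℕ) : Flowchart F where
  Node := QNode P D m m'
  fin := by
    have := P.fin
    have := D.fin
    infer_instance
  start := .inl (P.start, false, 0)
  instr := fun q => match q with
    | .inl (n, b, i) => insL P D m m' n b i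
    | .inr (c, n, b, j) => insR P D m m' c n b j

/-- second phase, `D` halts in time -/
theorem phase2_halt (P D : Flowchart F) (m m' : ℕ) (c : P.Node × Bool) (x w : ℕ) :
    ∀ (k : ℕ) (n : D.Node) (b : Bool) (j : Fin (m' + 1)) (s s' : ℕ → ℕ),
      Rep rd x b s s' → D.outAt k n s = some w → j.val + k ≤ m' →
      (comb P D m m').outAt k (Sum.inr (c, n, b, j)) s' = some w
  | 0, _, _, _, _, _, _, h, _ => by simp [Flowchart.outAt] at h
  | k + 1, n, b, j, s, s', hR, h, hj => by
    have hjm : j.val ≠ m' := by omega
    unfold Flowchart.outAt at h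
    cases hi : D.instr n with
    | halt o =>
      have hq : (comb P D m m').instr (Sum.inr (c, n, b, j)) = .halt (loc rd b o) := by
        simp [comb, insR, hjm, hi]
      rw [outAt_halt hq]
      simp only [hi] at h
      rw [hR.2.2 o]
      exact h
    | op f a d n' =>
      have hq : (comb P D m m').instr (Sum.inr (c, n, b, j)) =
          .op f (fun i => loc rd b (a i)) (rd d) (.inr (c, n', b || d == 0, nxt j)) := by
        simp [comb, insR, hjm, hi]
      rw [outAt_op hq]
      simp only [hi] at h
      rw [hR.args a]
      exact phase2_halt P D m m' c x w k n' _ (nxt j) _ _ (hR.upd rd_inj rd_pos d _) h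
        (by have := nxt_val j; omega)
    | test p a y z =>
      have hq : (comb P D m m').instr (Sum.inr (c, n, b, j)) =
          .test p (fun i => loc rd b (a i)) (.inr (c, y, b, nxt j)) (.inr (c, z, b, nxt j)) := by
        simp [comb, insR, hjm, hi]
      rw [outAt_test hq]
      simp only [hi] at h
      rw [hR.args a]
      cases hp : p.1.2 (fun i => s (a i)) with
      | true =>
        simp only [hp, cond_true] at h ⊢
        exact phase2_halt P D m m' c x w k y _ (nxt j) _ _ hR h (by have := nxt_val j; omega)
      | false =>
        simp only [hp, cond_false] at h ⊢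
        exact phase2_halt P D m m' c x w k z _ (nxt j) _ _ hR h (by have := nxt_val j; omega)

/-- second phase, `D` does not halt -/
theorem phase2_none (P D : Flowchart F) (m m' : ℕ) (c : P.Node × Bool) (x v : ℕ) :
    ∀ (r : ℕ) (n : D.Node) (b : Bool) (j : Fin (m' + 1)) (s s' : ℕ → ℕ),
      Rep rd x b s s' → s' (loc rp c.2 (outVar P c.1)) = v → (∀ k w, D.outAt k n s ≠ some w) →
      j.val + r = m' →
      (comb P D m m').outAt (r + 1) (Sum.inr (c, n, b, j)) s' = some v
  | 0, n, b, j, s, s', hR, hv, h, hj => by
    have hq : (comb P D m m').instr (Sum.inr (c, n, b, j)) =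
        .halt (loc rp c.2 (outVar P c.1)) := by
      have : j.val = m' := by omega
      simp [comb, insR, this]
    rw [outAt_halt hq]
    simp only [if_true, hv]
  | r + 1, n, b, j, s, s', hR, hv, h, hj => by
    have hjm : j.val ≠ m' := by omega
    cases hi : D.instr n with
    | halt o =>
      exact absurd (show D.outAt 1 n s = some (s o) by simp [Flowchart.outAt, hi]) (h 1 (s o))
    | op f a d n' =>
      have hq : (comb P D m m').instr (Sum.inr (c, n, b, j)) =
          .op f (fun i => loc rd b (a i)) (rd d) (.inr (c, n', b || d == 0, nxt j)) := by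
        simp [comb, insR, hjm, hi]
      rw [outAt_op hq]
      rw [hR.args a]
      refine phase2_none P D m m' c x v r n' _ (nxt j) _ _ (hR.upd rd_inj rd_pos d _) ?_ ?_
        (by have := nxt_val j; omega)
      · rw [Function.update_of_ne (loc_rp_ne_rd _ _ _)]
        exact hv
      · intro k w hk
        apply h (k + 1) w
        unfold Flowchart.outAt
        simp only [hi]
        exact hk
    | test p a y z =>
      have hq : (comb P D m m').instr (Sum.inr (c, n, b, j)) =
          .test p (fun i => loc rd b (a i)) (.inr (c, y, b, nxt j)) (.inr (c, z, b, nxt j)) := by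
        simp [comb, insR, hjm, hi]
      rw [outAt_test hq]
      rw [hR.args a]
      cases hp : p.1.2 (fun i => s (a i)) with
      | true =>
        refine phase2_none P D m m' c x v r y _ (nxt j) _ _ hR hv ?_ (by have := nxt_val j; omega)
        intro k w hk
        apply h (k + 1) w
        unfold Flowchart.outAt
        simp only [hi, hp, cond_true]
        exact hk
      | false =>
        refine phase2_none P D m m' c x v r z _ (nxt j) _ _ hR hv ?_ (by have := nxt_val j; omega)
        intro k w hk
        apply h (k + 1) w
        unfold Flowchart.outAt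
        simp only [hi, hp, cond_false]
        exact hk

/-- the invariant of the first phase -/
def Inv1 (x : ℕ) (b : Bool) (s s' : ℕ → ℕ) : Prop :=
  Rep rp x b s s' ∧ ∀ v, s' (rd v) = 0

theorem Inv1.upd {x : ℕ} {b : Bool} {s s' : ℕ → ℕ} (h : Inv1 x b s s') (d v : ℕ) :
    Inv1 x (b || d == 0) (Function.update s d v) (Function.update s' (rp d) v) := by
  refine ⟨h.1.upd rp_inj rp_pos d v, fun w => ?_⟩
  rw [Function.update_of_ne]
  · exact h.2 w
  · unfold rd rp
    omega

/-- first phase, `P` does not stop after exactly `m` steps -/
theorem phase1_ne (P D : Flowchart F) (m m' : ℕ) (x v : ℕ) :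
    ∀ (k : ℕ) (n : P.Node) (b : Bool) (i : Fin (m + 1)) (s s' : ℕ → ℕ),
      Rep rp x b s s' → P.outAt k n s = some v → i.val + k ≠ m →
      (comb P D m m').outAt k (Sum.inl (n, b, i)) s' = some v
  | 0, _, _, _, _, _, _, h, _ => by simp [Flowchart.outAt] at h
  | k + 1, n, b, i, s, s', hR, h, hk => by
    unfold Flowchart.outAt at h
    cases hi : P.instr n with
    | halt o =>
      simp only [hi] at h
      by_cases hk0 : k = 0
      · subst hk0
        have hq : (comb P D m m').instr (Sum.inl (n, b, i)) = .halt (loc rp b o) := by
          simp [comb, insL, hi, hk]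
        rw [outAt_halt hq]
        rw [hR.2.2 o]
        exact h
      · simp [hk0] at h
    | op f a d n' =>
      have hq : (comb P D m m').instr (Sum.inl (n, b, i)) =
          .op f (fun i => loc rp b (a i)) (rp d) (.inl (n', b || d == 0, nxt i)) := by
        simp [comb, insL, hi]
      rw [outAt_op hq]
      simp only [hi] at h
      rw [hR.args a]
      have hpos := outAt_pos h
      exact phase1_ne P D m m' x v k n' _ (nxt i) _ _ (hR.upd rp_inj rp_pos d _) h
        (by have := nxt_val i; have := i.isLt; omega)
    | test p a y z =>
      have hq : (comb P D m m').instr (Sum.inl (n, b, i)) =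
          .test p (fun i => loc rp b (a i)) (.inl (y, b, nxt i)) (.inl (z, b, nxt i)) := by
        simp [comb, insL, hi]
      rw [outAt_test hq]
      simp only [hi] at h
      rw [hR.args a]
      have hpos := outAt_pos h
      cases hp : p.1.2 (fun i => s (a i)) with
      | true =>
        simp only [hp, cond_true] at h ⊢
        exact phase1_ne P D m m' x v k y _ (nxt i) _ _ hR h
          (by have := nxt_val i; have := i.isLt; omega)
      | false =>
        simp only [hp, cond_false] at h ⊢
        exact phase1_ne P D m m' x v k z _ (nxt i) _ _ hR h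
          (by have := nxt_val i; have := i.isLt; omega)

theorem rep_rd_of_zero {x : ℕ} {s' : ℕ → ℕ} (h0 : s' 0 = x) (hz : ∀ v, s' (rd v) = 0) :
    Rep rd x false (init x) s' := by
  refine ⟨h0, fun _ => by simp [init], ?_⟩
  intro v
  unfold loc init
  by_cases hv : v = 0
  · simp [hv, h0]
  · simp [hv, hz]

/-- first phase, `P` stops after exactly `m` steps -/
theorem phase1_eq (P D : Flowchart F) (m m' : ℕ) (x v u E : ℕ)
    (hE : ∀ (c : P.Node × Bool) (s' : ℕ → ℕ), Rep rd x false (init x) s' →
      s' (loc rp c.2 (outVar P c.1)) = v →
      (comb P D m m').outAt E (Sum.inr (c, D.start, false, 0)) s' = some u) :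
    ∀ (k : ℕ) (n : P.Node) (b : Bool) (i : Fin (m + 1)) (s s' : ℕ → ℕ),
      Inv1 x b s s' → P.outAt k n s = some v → i.val + k = m →
      (comb P D m m').outAt (k - 1 + E) (Sum.inl (n, b, i)) s' = some u
  | 0, _, _, _, _, _, _, h, _ => by simp [Flowchart.outAt] at h
  | k + 1, n, b, i, s, s', hR, h, hk => by
    unfold Flowchart.outAt at h
    cases hi : P.instr n with
    | halt o =>
      simp only [hi] at h
      by_cases hk0 : k = 0
      · subst hk0
        simp only [if_true, Option.some.injEq] at h
        have hq : (comb P D m m').instr (Sum.inl (n, b, i)) =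
            (comb P D m m').instr (Sum.inr ((n, b), D.start, false, 0)) := by
          simp [comb, insL, hi, hk]
        rw [outAt_congr _ hq]
        simp only [Nat.zero_add, Nat.sub_self]
        refine hE (n, b) s' (rep_rd_of_zero hR.1.1 hR.2) ?_
        have : outVar P n = o := by simp [outVar, hi]
        rw [← h]
        simp only [this]
        exact hR.1.2.2 o
      · simp [hk0] at h
    | op f a d n' =>
      have hq : (comb P D m m').instr (Sum.inl (n, b, i)) =
          .op f (fun i => loc rp b (a i)) (rp d) (.inl (n', b || d == 0, nxt i)) := by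
        simp [comb, insL, hi]
      simp only [hi] at h
      have hpos := outAt_pos h
      obtain ⟨k₁, rfl⟩ : ∃ k₁, k = k₁ + 1 := ⟨k - 1, by omega⟩
      have hkE : k₁ + 1 + 1 - 1 + E = (k₁ + 1 - 1 + E) + 1 := by omega
      rw [hkE, outAt_op hq]
      rw [hR.1.args a]
      exact phase1_eq P D m m' x v u E hE (k₁ + 1) n' _ (nxt i) _ _ (hR.upd d _) h
        (by have := nxt_val i; omega)
    | test p a y z =>
      have hq : (comb P D m m').instr (Sum.inl (n, b, i)) =
          .test p (fun i => loc rp b (a i)) (.inl (y, b, nxt i)) (.inl (z, b, nxt i)) := by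
        simp [comb, insL, hi]
      simp only [hi] at h
      have hpos := outAt_pos h
      obtain ⟨k₁, rfl⟩ : ∃ k₁, k = k₁ + 1 := ⟨k - 1, by omega⟩
      have hkE : k₁ + 1 + 1 - 1 + E = (k₁ + 1 - 1 + E) + 1 := by omega
      rw [hkE, outAt_test hq]
      rw [hR.1.args a]
      cases hp : p.1.2 (fun i => s (a i)) with
      | true =>
        simp only [hp, cond_true] at h ⊢
        exact phase1_eq P D m m' x v u E hE (k₁ + 1) y _ (nxt i) _ _ hR h
          (by have := nxt_val i; omega)
      | false =>
        simp only [hp, cond_false] at h ⊢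
        exact phase1_eq P D m m' x v u E hE (k₁ + 1) z _ (nxt i) _ _ hR h
          (by have := nxt_val i; omega)

theorem inv1_init (x : ℕ) : Inv1 x false (init x) (init x) := by
  refine ⟨⟨by simp [init], fun _ => by simp [init], ?_⟩, ?_⟩
  · intro v
    unfold loc init
    by_cases hv : v = 0
    · simp [hv]
    · simp [hv, rp_pos]
  · intro v
    simp [init, rd_pos]

/-- one-point changes -/
theorem one_point (hU : Universal Set.univ F) {t : ℕ → ℕ} (ht : Tendsto t atTop atTop)
    {f : ℕ → ℕ} (hf : f ∈ Cls Set.univ F t) (x₀ w : ℕ) :
    Function.update f x₀ w ∈ Cls Set.univ F t := by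
  obtain ⟨P, -, hPc, hPt⟩ := hf
  -- the partial function with value `w` at `x₀` and no other value
  have hpart : Nat.Partrec (fun x : ℕ =>
      bif decide (x = x₀) then (Part.some w) else Part.none) := by
    have hc : Computable (fun x : ℕ => decide (x = x₀)) :=
      ((PrimrecRel.comp Primrec.eq Primrec.id (Primrec.const x₀) :
        PrimrecPred (fun x : ℕ => x = x₀)).decide).to_comp
    exact Partrec.nat_iff.1 (Partrec.cond hc (Computable.const w).partrec Partrec.none)
  obtain ⟨D, -, hD⟩ := hU _ hpart
  have hDx : ∃ k, D.Halts x₀ k w := (hD x₀ w).1 (by simp)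
  have hDn : ∀ x, x ≠ x₀ → ∀ k v, ¬ D.Halts x k v := by
    intro x hx k v hk
    have := (hD x v).2 ⟨k, hk⟩
    simp [hx] at this
  obtain ⟨_, m', rfl, hm'⟩ := hDx
  obtain ⟨_, m, rfl, hm⟩ := hPc x₀
  have hmpos := outAt_pos hm
  have hm'pos := outAt_pos hm'
  refine ⟨comb P D m m', fun _ _ _ => trivial, ?_, ?_⟩
  all_goals
    have key : ∀ x k, P.outAt k P.start (init x) = some (f x) →
        ∃ K, (K = k ∨ K ≤ m + m') ∧
          (comb P D m m').outAt K (comb P D m m').start (init x) =
            some (Function.update f x₀ w x) := by
      intro x k hk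
      by_cases hkm : k = m
      · by_cases hx : x = x₀
        · subst hx
          refine ⟨k - 1 + m', Or.inr (by omega), ?_⟩
          rw [Function.update_self]
          refine phase1_eq P D m m' x (f x) w m' ?_ k P.start false 0 _ _ (inv1_init x) hk
            (by simp [hkm])
          intro c s' hs' _
          exact phase2_halt P D m m' c x w m' D.start false 0 _ s' hs' hm' (by simp)
        · refine ⟨k - 1 + (m' + 1), Or.inr (by omega), ?_⟩
          rw [Function.update_of_ne hx]
          refine phase1_eq P D m m' x (f x) (f x) (m' + 1) ?_ k P.start false 0 _ _ (inv1_init x)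
            hk (by simp [hkm])
          intro c s' hs' hv
          refine phase2_none P D m m' c x (f x) m' D.start false 0 _ s' hs' hv ?_ (by simp)
          intro k' w' hk'
          exact hDn x hx _ _ ⟨k', rfl, hk'⟩
      · have hx : x ≠ x₀ := by
          rintro rfl
          exact hkm (outAt_unique P _ _ _ _ _ _ hk hm).1
        refine ⟨k, Or.inl rfl, ?_⟩
        rw [Function.update_of_ne hx]
        exact phase1_ne P D m m' x (f x) k P.start false 0 _ _ (inv1_init x).1 hk
          (by simpa using hkm)
  · intro x
    obtain ⟨_, k, rfl, hk⟩ := hPc x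
    obtain ⟨K, -, hK⟩ := key x k hk
    exact ⟨K + 1, K, rfl, hK⟩
  · filter_upwards [hPt, tendsto_atTop.1 ht (m + m' + 1)] with x hx htx
    obtain ⟨_, hkt, k, rfl, hk⟩ := hx
    obtain ⟨K, hKk, hK⟩ := key x k hk
    refine ⟨K + 1, ?_, K, rfl, hK⟩
    omega

/-- for bounds tending to infinity the classes are closed under finite variation -/
theorem invAt_of_tendsto (hU : Universal Set.univ F) {t : ℕ → ℕ} (ht : Tendsto t atTop atTop) :
    InvAt Set.univ F t := by
  intro f g hf hfg
  rw [eventually_atTop] at hfg
  obtain ⟨N, hN⟩ := hfg
  have main : ∀ k, (fun x => if x < k then g x else f x) ∈ Cls Set.univ F t := by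
    intro k
    induction k with
    | zero => simpa using hf
    | succ k ih =>
      have h := one_point hU ht ih k (g k)
      have he : Function.update (fun x => if x < k then g x else f x) k (g k) =
          fun x => if x < k + 1 then g x else f x := by
        funext x
        by_cases hx : x = k
        · subst hx
          simp
        · rw [Function.update_of_ne hx]
          have : x < k ↔ x < k + 1 := by omega
          simp [this]
      rw [he] at h
      exact h
  have h := main N
  have he : (fun x => if x < N then g x else f x) = g := by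
    funext x
    by_cases hx : x < N
    · simp [hx]
    · simp [hx, hN x (by omega)]
  rw [he] at h
  exact h

end Pool.Agent.H269.Flow
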